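import Pool.Agent.H69.EF.Finish
import Pool.Agent.H90.EF.Katona

set_option autoImplicit false

open Finset

namespace Pool.Agent.H69.EF

open Pool.Agent.H90.EF
open Pool.Agent.H79.EF (LC bal HHj Fin5 Good)
open Pool.Agent.H93.EF (Nb cw)
open Pool.Agent.H79.EF (TT_Nb lc_Nb lc_TT bal_le)

theorem cw_eq_cc {k : ℕ} (W : ℕ) (e : Fin k → Finset ℕ) : cw W e = cc W e := by
  induction W with
  | zero => rfl
  | succ W ih => rw [cc_succ, ← ih]; rfl

theorem prod_Nb_le_bal {k n σ : ℕ} (hk : 1 ≤ k) (j : Fin k → ℤ) (hj : ∑ l, j l ≤ σ) :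
    ∏ l, Nb n (j l) ≤ bal k n σ := by
  have hdm := Nat.div_add_mod σ k
  refine LC.prod_le (lc_Nb n) (i := ((σ / k : ℕ) : ℤ)) (by positivity)
    (Nat.mod_lt σ (by omega)).le j ?_
  have e : ((σ : ℕ) : ℤ) = k * (σ / k : ℕ) + (σ % k : ℕ) := by exact_mod_cast hdm.symm
  rw [← e]
  exact hj

/-- from the product bounds to the conjectured bound -/
theorem cube_of_Bd {k : ℕ} (hk : 2 ≤ k) (t s : ℕ) (J : Finset ℕ → ℤ)
    (hJ : ∀ e : Fin k → Finset ℕ, (∀ l, e l ⊆ range (k * s)) → ∑ l, J (e l) ≤ cw (k * s) e)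
    (hB : ∀ M : ℝ, (∀ σ ≤ k * s, bal k (t + σ) σ ≤ 2 ^ (k * σ) * M) →
      Bd (Fin k) (k * s) 0 (Nb t) (2 ^ (k * (k * s)) * M)) :
    ∃ i ≤ s, ∑ e ∈ (range (k * s)).powerset, Nb t (J e) ≤
        2 ^ (k * (s - i)) * Nb (t + k * i) i := by
  obtain ⟨i, hi, hmax⟩ := exists_max_image (range (s + 1))
    (fun i : ℕ => Nb (t + k * i) i / 2 ^ (k * i)) ⟨0, by simp⟩
  rw [mem_range] at hi
  refine ⟨i, by omega, ?_⟩
  set v := Nb (t + k * i) i / 2 ^ (k * i) with hv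
  have hNb0 : ∀ n (p : ℤ), 0 ≤ Nb n p := fun n p => LC.nonneg (lc_Nb n) p
  have hv0 : 0 ≤ v := div_nonneg (hNb0 _ _) (by positivity)
  have h1 := hB (v ^ k) (fun σ hσ => bal_le hk hσ (fun i' hi' => by
    have h2 := hmax i' (mem_range.mpr (by omega))
    rw [div_le_iff₀ (by positivity)] at h2
    calc Nb (t + k * i') i' ^ k ≤ (v * 2 ^ (k * i')) ^ k := pow_le_pow_left₀ (hNb0 _ _) h2 k
      _ = 2 ^ (k * (k * i')) * v ^ k := by
          rw [mul_pow, ← pow_mul, mul_comm (k * i') k]; ring))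
  have h3 := h1 (fun _ => J) (fun e he _ => by
    rw [zero_add, ← cw_eq_cc]; exact hJ e he)
  rw [prod_const, card_univ, Fintype.card_fin] at h3
  have h4 : EN (k * s) (Nb t) J ^ k ≤ (2 ^ (k * s) * v) ^ k := by
    refine h3.trans (le_of_eq ?_)
    rw [mul_pow, ← pow_mul, mul_comm (k * s) k]
  have hEN0 : 0 ≤ EN (k * s) (Nb t) J := sum_nonneg (fun _ _ => hNb0 _ _)
  have h5 : EN (k * s) (Nb t) J ≤ 2 ^ (k * s) * v :=
    (pow_le_pow_iff_left₀ hEN0 (by positivity) (by omega)).mp h4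
  change EN (k * s) (Nb t) J ≤ _
  refine h5.trans (le_of_eq ?_)
  rw [hv, mul_div_assoc', div_eq_iff (by positivity)]
  have e : k * s = k * (s - i) + k * i := by
    rw [← mul_add]; congr 1; omega
  rw [e, pow_add]
  ring

/-- the first stage for `k = 3` -/
theorem stage3 {t α₁ c : ℕ} {x ρ : ℝ} (hx0 : 0 < x) (hx1 : x < 1)
    (h1 : (1 + x) ^ 3 ≤ 2 ^ 3 * x) (h2 : (1 + x) ^ 3 ≤ 2) (hF : Fin5 3 t α₁ c x ρ)
    (hg : ∀ α < α₁, Good x α (Nb (t + α))) {M : ℝ} (hM0 : 0 ≤ M) :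
    ∀ (W α : ℕ), α ≤ α₁ → (∀ σ, α ≤ σ → σ ≤ α + W → bal 3 (t + σ) σ ≤ 2 ^ (3 * σ) * M) →
      Bd (Fin 3) W α (Nb (t + α)) (2 ^ (3 * (α + W)) * M) := by
  intro W
  induction W with
  | zero =>
    intro α _ hM
    refine Bd_zero (fun p hp => (lc_Nb _).neg p hp) (by positivity) (fun j hj => ?_)
    exact (prod_Nb_le_bal (by omega) j hj).trans (hM α le_rfl (by omega))
  | succ W ih =>
    intro α hα hM
    rcases eq_or_lt_of_le hα with h | h
    · subst h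
      exact finish (by omega) hx0 hx1 h1 h2 hF hM
    · refine step3 hx0 hx1 h1 (lc_Nb _) (hg α h) (by positivity) ?_ ?_
      · refine (ih α hα (fun σ h3 h4 => hM σ h3 (by omega))).mono_const (le_of_eq ?_)
        rw [show 3 * (α + (W + 1)) = 3 * (α + W) + 3 by ring, pow_add]
        ring
      · rw [TT_Nb]
        have h3 := ih (α + 1) h (fun σ h3 h4 => hM σ (by omega) (by omega))
        rw [show t + (α + 1) = t + α + 1 by ring] at h3
        push_cast at h3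
        refine h3.mono_const (le_of_eq ?_)
        congr 2
        ring

/-- the numerical input for `k ≥ 4` -/
def Large (k : ℕ) : Prop := ∃ x : ℝ, 0 < x ∧ x < 1 ∧
    (1 + x) ^ k ≤ 2 ^ k * x ∧ (1 + x) ^ k ≤ 2 ∧ ∀ t : ℕ, ∃ c : ℕ, ∃ ρ : ℝ, Fin5 k t 0 c x ρ

/-- the numerical input for `k = 3` -/
def Num3 : Prop := ∀ t : ℕ, ∃ α₁ c : ℕ, ∃ ρ : ℝ, Fin5 3 t α₁ c (17 / 72) ρ ∧
    ∀ α < α₁, Good (17 / 72) α (Nb (t + α))

theorem M_nonneg {k t s : ℕ} {M : ℝ}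
    (hM : ∀ σ ≤ k * s, bal k (t + σ) σ ≤ 2 ^ (k * σ) * M) : 0 ≤ M := by
  have h3 := hM 0 (by omega)
  have h4 : 0 ≤ bal k (t + 0) 0 := by
    unfold bal
    exact mul_nonneg (pow_nonneg (LC.nonneg (lc_Nb _) _) _)
      (pow_nonneg (LC.nonneg (lc_Nb _) _) _)
  rw [Nat.mul_zero, pow_zero, one_mul] at h3
  exact h4.trans h3

theorem cube_large {k : ℕ} (hk : 2 ≤ k) (hL : Large k) (t s : ℕ) (J : Finset ℕ → ℤ)
    (hJ : ∀ e : Fin k → Finset ℕ, (∀ l, e l ⊆ range (k * s)) → ∑ l, J (e l) ≤ cw (k * s) e) :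
    ∃ i ≤ s, ∑ e ∈ (range (k * s)).powerset, Nb t (J e) ≤
        2 ^ (k * (s - i)) * Nb (t + k * i) i := by
  obtain ⟨x, hx0, hx1, h1, h2, hF⟩ := hL
  obtain ⟨c, ρ, hc⟩ := hF t
  refine cube_of_Bd hk t s J hJ (fun M hM => ?_)
  have h3 := finish hk hx0 hx1 h1 h2 hc (M := M) (W := k * s) (fun σ _ h4 => hM σ (by omega))
  rw [zero_add] at h3
  exact_mod_cast h3

theorem cube_three (hN : Num3) (t s : ℕ) (J : Finset ℕ → ℤ)
    (hJ : ∀ e : Fin 3 → Finset ℕ, (∀ l, e l ⊆ range (3 * s)) → ∑ l, J (e l) ≤ cw (3 * s) e) :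
    ∃ i ≤ s, ∑ e ∈ (range (3 * s)).powerset, Nb t (J e) ≤
        2 ^ (3 * (s - i)) * Nb (t + 3 * i) i := by
  obtain ⟨α₁, c, ρ, hc, hg⟩ := hN t
  refine cube_of_Bd (by omega) t s J hJ (fun M hM => ?_)
  have h3 := stage3 (x := 17 / 72) (by norm_num) (by norm_num) (by norm_num) (by norm_num) hc hg
    (M_nonneg hM) (3 * s) 0 (by omega) (fun σ _ h4 => hM σ (by omega))
  rw [zero_add] at h3
  exact_mod_cast h3

/-- **The Erdős–Frankl conjecture.** -/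
theorem erdos_frankl (hN : Num3) (hL : ∀ k, 4 ≤ k → Large k) {n k d : ℕ} (hk : 0 < k)
    (hdn : d ≤ n) :
    IsGreatest
        {m : ℕ | ∃ A : Finset (Finset (Fin n)),
          (∀ f : Fin k → Finset (Fin n), (∀ j, f j ∈ A) →
            (Finset.univ.biUnion f).card ≤ d) ∧ A.card = m}
        ((Finset.range (d / k + 1)).sup
          (fun i => 2 ^ (d - k * i) *
            ∑ j ∈ Finset.range (i + 1), (n - d + k * i).choose j)) := by
  rcases Nat.lt_or_ge k 3 with h3 | h3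
  · rcases Nat.lt_or_ge k 2 with h2 | h2
    · obtain rfl : k = 1 := by omega
      exact Pool.Agent.H93.EF.isGreatest_conj hdn (p_one_all hdn)
    · obtain rfl : k = 2 := by omega
      exact Pool.Agent.H93.EF.isGreatest_conj hdn (p_two_all hdn)
  · rcases Nat.lt_or_ge k 4 with h4 | h4
    · obtain rfl : k = 3 := by omega
      exact Pool.Agent.H93.EF.isGreatest_of_cube (by omega) (cube_three hN) hdn
    · exact Pool.Agent.H93.EF.isGreatest_of_cube hk (cube_large (by omega) (hL k h4)) hdn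

end Pool.Agent.H69.EF
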