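import Mathlib
import Pool.Agent.H93.EF.Dom

set_option autoImplicit false

open Finset

namespace Pool.Agent.H69.EF

open Pool.Agent.H93.EF

/-- number of elements of `B` that are at least `x` -/
def suf (x : ℕ) (B : Finset ℕ) : ℕ := (B.filter (fun b => x ≤ b)).card

theorem suf_empty (x : ℕ) : suf x ∅ = 0 := by simp [suf]

theorem suf_erase_of_le {x a : ℕ} {B : Finset ℕ} (ha : a ∈ B) (hx : x ≤ a) :
    suf x (B.erase a) + 1 = suf x B := by
  have e : (B.erase a).filter (fun b => x ≤ b) = (B.filter (fun b => x ≤ b)).erase a := by
    ext y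
    simp only [mem_filter, mem_erase]
    tauto
  have hm : a ∈ B.filter (fun b => x ≤ b) := mem_filter.mpr ⟨ha, hx⟩
  have : 0 < (B.filter (fun b => x ≤ b)).card := card_pos.mpr ⟨a, hm⟩
  unfold suf
  rw [e, card_erase_of_mem hm]
  omega

theorem suf_erase_le (x a : ℕ) (B : Finset ℕ) : suf x (B.erase a) ≤ suf x B := by
  unfold suf
  exact card_le_card (filter_subset_filter _ (erase_subset _ _))

theorem suf_insert_le (x a : ℕ) (B : Finset ℕ) : suf x (insert a B) ≤ suf x B + 1 := by
  unfold suf
  rw [filter_insert]
  split_ifs
  · exact card_insert_le _ _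
  · omega

theorem suf_insert_of_lt {x a : ℕ} (B : Finset ℕ) (h : a < x) : suf x (insert a B) = suf x B := by
  unfold suf
  rw [filter_insert, if_neg (by omega)]

/-- The greedy cover. -/
theorem cover_aux {k : ℕ} : ∀ (D : ℕ) (A : Fin k → Finset ℕ),
    (∀ x < D, D ≤ x + ∑ l, suf x (A l)) →
    ∃ B : Fin k → Finset ℕ, (∀ y < D, ∃ l, y ∈ B l) ∧ ∀ l z, suf z (B l) ≤ suf z (A l) := by
  intro D
  induction D with
  | zero =>
    intro A _
    exact ⟨fun _ => ∅, fun y hy => absurd hy (Nat.not_lt_zero _),
      fun l z => by rw [suf_empty]; exact Nat.zero_le _⟩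
  | succ D ih =>
    intro A hA
    have h1 := hA D (Nat.lt_succ_self D)
    have hex : ∃ l0, ∃ a0 ∈ A l0, D ≤ a0 := by
      by_contra hcon
      push Not at hcon
      have h2 : ∑ l, suf D (A l) = 0 := by
        refine sum_eq_zero (fun l _ => ?_)
        unfold suf
        rw [card_eq_zero, filter_eq_empty_iff]
        intro a ha
        have := hcon l a ha
        omega
      omega
    obtain ⟨l0, a0, ha0, hDa⟩ := hex
    set A' : Fin k → Finset ℕ := Function.update A l0 ((A l0).erase a0) with hA'
    have hsum : ∀ x ≤ D, ∑ l, suf x (A' l) + 1 = ∑ l, suf x (A l) := by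
      intro x hx
      rw [← add_sum_erase univ (fun l => suf x (A' l)) (mem_univ l0),
        ← add_sum_erase univ (fun l => suf x (A l)) (mem_univ l0)]
      have e1 : A' l0 = (A l0).erase a0 := by rw [hA', Function.update_self]
      have e2 : ∑ l ∈ univ.erase l0, suf x (A' l) = ∑ l ∈ univ.erase l0, suf x (A l) := by
        refine sum_congr rfl (fun l hl => ?_)
        rw [hA', Function.update_of_ne (ne_of_mem_erase hl)]
      have e3 := suf_erase_of_le ha0 (hx.trans hDa)
      simp only [e1, e2]
      omega
    obtain ⟨B', hB1, hB2⟩ := ih A' (by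
      intro x hx
      have h2 := hA x (by omega)
      have h3 := hsum x (by omega)
      omega)
    refine ⟨Function.update B' l0 (insert D (B' l0)), ?_, ?_⟩
    · intro y hy
      rcases Nat.lt_succ_iff_lt_or_eq.mp hy with h | h
      · obtain ⟨l, hl⟩ := hB1 y h
        refine ⟨l, ?_⟩
        by_cases hll : l = l0
        · subst hll
          rw [Function.update_self]
          exact mem_insert_of_mem hl
        · rw [Function.update_of_ne hll]; exact hl
      · subst h
        exact ⟨l0, by rw [Function.update_self]; exact mem_insert_self _ _⟩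
    · intro l z
      by_cases hll : l = l0
      · subst hll
        rw [Function.update_self]
        have h2 := hB2 l z
        rw [hA', Function.update_self] at h2
        by_cases hz : z ≤ D
        · have h3 := suf_insert_le z D (B' l)
          have h4 := suf_erase_of_le ha0 (hz.trans hDa)
          omega
        · rw [suf_insert_of_lt _ (by omega)]
          exact h2.trans (suf_erase_le _ _ _)
      · rw [Function.update_of_ne hll]
        have h2 := hB2 l z
        rwa [hA', Function.update_of_ne hll] at h2

/-- **Cover criterion**: among `k` members of a shifted down-closed family satisfying the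
`k`-wise condition there is a place where the suffix counts are small. -/
theorem touch {k d : ℕ} {F : Finset (Finset ℕ)} (hD : Down F) (hS : Shifted F)
    (hK : KU k d F) (A : Fin k → Finset ℕ) (hA : ∀ l, A l ∈ F) :
    ∃ x ≤ d, x + ∑ l, suf x (A l) ≤ d := by
  by_contra hcon
  push Not at hcon
  obtain ⟨B, hB1, hB2⟩ := cover_aux (d + 1) A (by
    intro x hx
    have := hcon x (by omega)
    omega)
  have hBF : ∀ l, B l ∈ F := fun l => dom hD hS _ (B l) (A l) rfl (hA l) (fun x => hB2 l x)
  have h1 := hK B hBF
  have h2 : range (d + 1) ⊆ univ.biUnion B := by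
    intro y hy
    rw [mem_range] at hy
    obtain ⟨l, hl⟩ := hB1 y hy
    exact mem_biUnion.mpr ⟨l, mem_univ _, hl⟩
  have h3 := card_le_card h2
  rw [card_range] at h3
  omega

end Pool.Agent.H69.EF
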