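import Mathlib
import Pool.Agent.H69.EF.Cover
import Pool.Agent.H93.EF.Walk

set_option autoImplicit false

open Finset

namespace Pool.Agent.H69.EF

open Pool.Agent.H93.EF

/-- The binomial coefficients `C(M,g)`, `g ≤ i`, `M ≥ t`, grow at least by the factor `1/Λ`. -/
def Fast (t i : ℕ) (Λ : ℝ) : Prop := ∀ M, t ≤ M → ∀ g < i, (M.choose g : ℝ) ≤ Λ * M.choose (g + 1)

theorem fast_pow {t i : ℕ} {Λ : ℝ} (hΛ0 : 0 ≤ Λ) (hf : Fast t i Λ) {M : ℕ} (hM : t ≤ M) :
    ∀ q g, g + q = i → (M.choose g : ℝ) ≤ Λ ^ q * M.choose i := by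
  intro q
  induction q with
  | zero => intro g hg; rw [add_zero] at hg; subst hg; simp
  | succ q ih =>
    intro g hg
    have h1 := ih (g + 1) (by omega)
    have h2 := hf M hM g (by omega)
    calc (M.choose g : ℝ) ≤ Λ * M.choose (g + 1) := h2
      _ ≤ Λ * (Λ ^ q * M.choose i) := mul_le_mul_of_nonneg_left h1 hΛ0
      _ = _ := by ring

theorem fast_mono {t i : ℕ} {Λ : ℝ} (hf : Fast t i Λ) {j : ℕ} (hj : j ≤ i) : Fast t j Λ :=
  fun M hM g hg => hf M hM g (by omega)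

/-- sums of rapidly growing binomials -/
theorem inner_le {t i M h : ℕ} {Λ Y : ℝ} (hΛ0 : 0 ≤ Λ) (hY : 0 < Y) (hΛY : Λ * Y < 1)
    (hf : Fast t i Λ) (hM : t ≤ M) :
    ∑ g ∈ range (M + 1), (M.choose g : ℝ) * (if h + g ≤ i then (1 / Y) ^ g else 0) ≤
      (Λ * Y) ^ h / (1 - Λ * Y) * (M.choose i * (1 / Y) ^ i) := by
  have hΛY0 : 0 ≤ Λ * Y := mul_nonneg hΛ0 hY.le
  have h1 : ∑ g ∈ range (M + 1), (M.choose g : ℝ) * (if h + g ≤ i then (1 / Y) ^ g else 0) =
      ∑ g ∈ (range (M + 1)).filter (fun g => h + g ≤ i), (M.choose g : ℝ) * (1 / Y) ^ g := by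
    rw [sum_filter]
    refine sum_congr rfl (fun g _ => ?_)
    split_ifs <;> simp
  rw [h1]
  have h2 : ∀ g ∈ (range (M + 1)).filter (fun g => h + g ≤ i),
      (M.choose g : ℝ) * (1 / Y) ^ g ≤ (Λ * Y) ^ (i - g) * (M.choose i * (1 / Y) ^ i) := by
    intro g hg
    have hgi : h + g ≤ i := (mem_filter.mp hg).2
    have h3 := fast_pow hΛ0 hf hM (i - g) g (by omega)
    have h4 : (1 / Y) ^ g = Y ^ (i - g) * (1 / Y) ^ i := by
      have e1 : i = g + (i - g) := by omega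
      conv_rhs => rw [e1, pow_add]
      rw [Nat.add_sub_cancel_left]
      have : Y ^ (i - g) * ((1 / Y) ^ g * (1 / Y) ^ (i - g)) =
          (1 / Y) ^ g * (Y * (1 / Y)) ^ (i - g) := by rw [mul_pow]; ring
      rw [this, mul_one_div_cancel hY.ne', one_pow, mul_one]
    rw [h4, mul_pow]
    have h5 : 0 ≤ Y ^ (i - g) * (1 / Y) ^ i := by positivity
    calc (M.choose g : ℝ) * (Y ^ (i - g) * (1 / Y) ^ i)
        ≤ (Λ ^ (i - g) * M.choose i) * (Y ^ (i - g) * (1 / Y) ^ i) :=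
          mul_le_mul_of_nonneg_right h3 h5
      _ = _ := by ring
  refine (sum_le_sum h2).trans ?_
  rw [← sum_mul]
  refine mul_le_mul_of_nonneg_right ?_ (by positivity)
  have h6 : ∑ g ∈ (range (M + 1)).filter (fun g => h + g ≤ i), (Λ * Y) ^ (i - g) ≤
      ∑ q ∈ Ico h (i + 1), (Λ * Y) ^ q := by
    have hinj : Set.InjOn (fun g => i - g) ((range (M + 1)).filter (fun g => h + g ≤ i)) := by
      intro a ha b hb hab
      have ha' := (mem_filter.mp (mem_coe.mp ha)).2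
      have hb' := (mem_filter.mp (mem_coe.mp hb)).2
      simp only at hab
      omega
    rw [← sum_image (f := fun q => (Λ * Y) ^ q) hinj]
    refine sum_le_sum_of_subset_of_nonneg ?_ (fun q _ _ => pow_nonneg hΛY0 _)
    intro q hq
    rw [mem_image] at hq
    obtain ⟨g, hg, rfl⟩ := hq
    have := (mem_filter.mp hg).2
    rw [mem_Ico]
    omega
  exact h6.trans (geom_sum_Ico_le_of_lt_one hΛY0 hΛY)

/-- Splitting a sum over subsets of `range n` at two places. -/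
theorem sum_split_le {n p q : ℕ} (_hpq : p ≤ q) {S : Finset (Finset ℕ)}
    (hS : S ⊆ (range n).powerset) (g : Finset ℕ → Finset ℕ → ℝ) (hg : ∀ C1 C2, 0 ≤ g C1 C2)
    (T : Finset ℕ → Finset (Finset ℕ)) (hT : ∀ D ∈ S, D ∩ Ico q n ∈ T (D ∩ Ico p q)) :
    ∑ D ∈ S, g (D ∩ Ico p q) (D ∩ Ico q n) ≤
      2 ^ p * ∑ C1 ∈ (Ico p q).powerset, ∑ C2 ∈ T C1, g C1 C2 := by
  classical
  set U : Finset (Finset ℕ × (Σ _ : Finset ℕ, Finset ℕ)) :=
    (range p).powerset ×ˢ ((Ico p q).powerset.sigma T) with hU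
  have h1 : 2 ^ p * ∑ C1 ∈ (Ico p q).powerset, ∑ C2 ∈ T C1, g C1 C2 =
      ∑ z ∈ U, g z.2.1 z.2.2 := by
    have e1 : ∑ z ∈ U, g z.2.1 z.2.2 = ∑ _x ∈ (range p).powerset,
        ∑ y ∈ (Ico p q).powerset.sigma T, g y.1 y.2 := sum_product _ _ _
    rw [e1, sum_const, card_powerset, card_range, nsmul_eq_mul, sum_sigma]
    push_cast
    rfl
  rw [h1]
  set Φ : Finset ℕ → Finset ℕ × (Σ _ : Finset ℕ, Finset ℕ) :=
    fun D => (D ∩ range p, ⟨D ∩ Ico p q, D ∩ Ico q n⟩) with hΦ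
  have hinj : Set.InjOn Φ S := by
    intro D hD E hE h
    have hD' := mem_powerset.mp (hS (mem_coe.mp hD))
    have hE' := mem_powerset.mp (hS (mem_coe.mp hE))
    have e1 : D ∩ range p = E ∩ range p := congrArg (fun z => z.1) h
    have e2 : D ∩ Ico p q = E ∩ Ico p q := congrArg (fun z => z.2.1) h
    have e3 : D ∩ Ico q n = E ∩ Ico q n := congrArg (fun z => z.2.2) h
    ext x
    have f1 := congrArg (fun S => x ∈ S) e1
    have f2 := congrArg (fun S => x ∈ S) e2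
    have f3 := congrArg (fun S => x ∈ S) e3
    simp only [mem_inter, mem_range, mem_Ico, eq_iff_iff] at f1 f2 f3
    constructor
    · intro hx
      have hxn := mem_range.mp (hD' hx)
      by_cases h1 : x < p
      · exact (f1.mp ⟨hx, h1⟩).1
      · by_cases h2 : x < q
        · exact (f2.mp ⟨hx, by omega, h2⟩).1
        · exact (f3.mp ⟨hx, by omega, hxn⟩).1
    · intro hx
      have hxn := mem_range.mp (hE' hx)
      by_cases h1 : x < p
      · exact (f1.mpr ⟨hx, h1⟩).1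
      · by_cases h2 : x < q
        · exact (f2.mpr ⟨hx, by omega, h2⟩).1
        · exact (f3.mpr ⟨hx, by omega, hxn⟩).1
  have h2 : ∑ D ∈ S, g (D ∩ Ico p q) (D ∩ Ico q n) = ∑ z ∈ S.image Φ, g z.2.1 z.2.2 := by
    rw [sum_image hinj]
  rw [h2]
  refine sum_le_sum_of_subset_of_nonneg ?_ (fun z _ _ => hg _ _)
  intro z hz
  rw [mem_image] at hz
  obtain ⟨D, hD, rfl⟩ := hz
  rw [hU, mem_product, mem_sigma, mem_powerset, mem_powerset]
  exact ⟨inter_subset_right, inter_subset_right, hT D hD⟩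

/-- the level family -/
def lev (n m i : ℕ) : Finset (Finset ℕ) :=
  (range n).powerset.filter (fun D => (D ∩ Ico m n).card ≤ i)

theorem suf_eq {n x : ℕ} {D : Finset ℕ} (hD : D ⊆ range n) : suf x D = (D ∩ Ico x n).card := by
  unfold suf
  refine congrArg card ?_
  ext y
  rw [mem_filter, mem_inter, mem_Ico]
  constructor
  · rintro ⟨h1, h2⟩
    exact ⟨h1, h2, mem_range.mp (hD h1)⟩
  · rintro ⟨h1, h2, _⟩
    exact ⟨h1, h2⟩

theorem card_inter_Ico_split {p q n : ℕ} (hpq : p ≤ q) (hqn : q ≤ n) (D : Finset ℕ) :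
    (D ∩ Ico p n).card = (D ∩ Ico p q).card + (D ∩ Ico q n).card := by
  rw [← card_union_of_disjoint]
  · congr 1
    ext y
    simp only [mem_inter, mem_union, mem_Ico]
    constructor
    · rintro ⟨h1, h2, h3⟩
      by_cases h : y < q
      · exact Or.inl ⟨h1, h2, h⟩
      · exact Or.inr ⟨h1, by omega, h3⟩
    · rintro (⟨h1, h2, h3⟩ | ⟨h1, h2, h3⟩)
      · exact ⟨h1, h2, by omega⟩
      · exact ⟨h1, by omega, h3⟩
  · rw [disjoint_left]
    intro y h1 h2
    rw [mem_inter, mem_Ico] at h1 h2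
    omega

theorem sum_powerset_card {S : Finset ℕ} (f : ℕ → ℝ) :
    ∑ C ∈ S.powerset, f C.card = ∑ g ∈ range (S.card + 1), (S.card.choose g : ℝ) * f g := by
  rw [sum_powerset_apply_card]
  refine sum_congr rfl (fun g _ => ?_)
  rw [nsmul_eq_mul]

theorem sum_pow_card (S : Finset ℕ) (z : ℝ) : ∑ C ∈ S.powerset, z ^ C.card = (1 + z) ^ S.card := by
  have h := Finset.sum_pow_mul_eq_add_pow z 1 S
  simp only [one_pow, mul_one] at h
  rw [h, add_comm]

/-- first moment bound to the right of the level -/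
theorem moment_right {n m x i t : ℕ} {Λ Y : ℝ} (hΛ0 : 0 ≤ Λ) (hY : 0 < Y) (hΛY : Λ * Y < 1)
    (hf : Fast t i Λ) (hmx : m ≤ x) (hxn : x + t ≤ n) :
    ∑ D ∈ lev n m i, (1 / Y) ^ suf x D ≤
      (2 ^ m * (n - m).choose i) * (1 / (1 - Λ * Y)) * (1 / Y) ^ i * (1 + Λ * Y) ^ (x - m) := by
  have hΛY0 : 0 ≤ Λ * Y := mul_nonneg hΛ0 hY.le
  have hden : 0 < 1 - Λ * Y := by linarith
  have hY1 : 0 < 1 / Y := by positivity
  have h1 : ∑ D ∈ lev n m i, (1 / Y) ^ suf x D =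
      ∑ D ∈ lev n m i, (fun _ C2 : Finset ℕ => (1 / Y) ^ C2.card) (D ∩ Ico m x) (D ∩ Ico x n) := by
    refine sum_congr rfl (fun D hD => ?_)
    have hDn := mem_powerset.mp (mem_filter.mp hD).1
    rw [suf_eq hDn]
  rw [h1]
  have h2 := sum_split_le hmx (S := lev n m i) (filter_subset _ _)
    (fun _ C2 : Finset ℕ => (1 / Y) ^ C2.card) (fun _ _ => by positivity)
    (fun C1 => (Ico x n).powerset.filter (fun C2 => C1.card + C2.card ≤ i)) (by
      intro D hD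
      have hD2 := (mem_filter.mp hD).2
      rw [card_inter_Ico_split hmx (by omega)] at hD2
      rw [mem_filter, mem_powerset]
      exact ⟨inter_subset_right, hD2⟩)
  refine h2.trans ?_
  have h3 : ∀ C1 : Finset ℕ,
      ∑ C2 ∈ (Ico x n).powerset.filter (fun C2 => C1.card + C2.card ≤ i), (1 / Y) ^ C2.card ≤
        (Λ * Y) ^ C1.card / (1 - Λ * Y) * ((n - x).choose i * (1 / Y) ^ i) := by
    intro C1
    rw [sum_filter]
    have h4 := sum_powerset_card (S := Ico x n)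
      (fun g => if C1.card + g ≤ i then (1 / Y) ^ g else 0)
    rw [Nat.card_Ico] at h4
    rw [h4]
    exact inner_le hΛ0 hY hΛY hf (by omega)
  calc (2 : ℝ) ^ m * ∑ C1 ∈ (Ico m x).powerset, ∑ C2 ∈ (Ico x n).powerset.filter
        (fun C2 => C1.card + C2.card ≤ i), (1 / Y) ^ C2.card
      ≤ 2 ^ m * ∑ C1 ∈ (Ico m x).powerset,
          (Λ * Y) ^ C1.card / (1 - Λ * Y) * ((n - x).choose i * (1 / Y) ^ i) := by
        refine mul_le_mul_of_nonneg_left (sum_le_sum (fun C1 _ => h3 C1)) (by positivity)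
    _ = 2 ^ m * ((1 + Λ * Y) ^ (x - m) / (1 - Λ * Y) * ((n - x).choose i * (1 / Y) ^ i)) := by
        rw [← sum_mul, ← sum_div, sum_pow_card, Nat.card_Ico]
    _ ≤ 2 ^ m * ((1 + Λ * Y) ^ (x - m) / (1 - Λ * Y) * ((n - m).choose i * (1 / Y) ^ i)) := by
        have h5 : ((n - x).choose i : ℝ) ≤ (n - m).choose i := by
          exact_mod_cast Nat.choose_le_choose i (by omega)
        gcongr
    _ = _ := by ring

/-- first moment bound to the left of the level -/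
theorem moment_left {n m x i t : ℕ} {Λ Y : ℝ} (hΛ0 : 0 ≤ Λ) (hY : 0 < Y) (hΛY : Λ * Y < 1)
    (hf : Fast t i Λ) (hxm : x ≤ m) (hmn : m + t ≤ n) :
    ∑ D ∈ lev n m i, (1 / Y) ^ suf x D ≤
      (2 ^ m * (n - m).choose i) * (1 / (1 - Λ * Y)) * (1 / Y) ^ i *
        ((1 + 1 / Y) / 2) ^ (m - x) := by
  have hΛY0 : 0 ≤ Λ * Y := mul_nonneg hΛ0 hY.le
  have hden : 0 < 1 - Λ * Y := by linarith
  have hY1 : 0 < 1 / Y := by positivity
  have h1 : ∑ D ∈ lev n m i, (1 / Y) ^ suf x D =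
      ∑ D ∈ lev n m i, (fun C1 C2 : Finset ℕ => (1 / Y) ^ C1.card * (1 / Y) ^ C2.card)
        (D ∩ Ico x m) (D ∩ Ico m n) := by
    refine sum_congr rfl (fun D hD => ?_)
    have hDn := mem_powerset.mp (mem_filter.mp hD).1
    rw [suf_eq hDn, card_inter_Ico_split hxm (by omega), pow_add]
  rw [h1]
  have h2 := sum_split_le hxm (S := lev n m i) (filter_subset _ _)
    (fun C1 C2 : Finset ℕ => (1 / Y) ^ C1.card * (1 / Y) ^ C2.card) (fun _ _ => by positivity)
    (fun _ => (Ico m n).powerset.filter (fun C2 => 0 + C2.card ≤ i)) (by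
      intro D hD
      have hD2 := (mem_filter.mp hD).2
      rw [mem_filter, mem_powerset, zero_add]
      exact ⟨inter_subset_right, hD2⟩)
  refine h2.trans ?_
  have h3 : ∑ C2 ∈ (Ico m n).powerset.filter (fun C2 => 0 + C2.card ≤ i), (1 / Y) ^ C2.card ≤
        1 / (1 - Λ * Y) * ((n - m).choose i * (1 / Y) ^ i) := by
    rw [sum_filter]
    have h4 := sum_powerset_card (S := Ico m n)
      (fun g => if 0 + g ≤ i then (1 / Y) ^ g else 0)
    rw [Nat.card_Ico] at h4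
    rw [h4]
    have h5 := inner_le (h := 0) hΛ0 hY hΛY hf (show t ≤ n - m by omega)
    rwa [pow_zero] at h5
  have e1 : ∀ C1 : Finset ℕ, ∑ C2 ∈ (Ico m n).powerset.filter (fun C2 => 0 + C2.card ≤ i),
      (1 / Y) ^ C1.card * (1 / Y) ^ C2.card = (1 / Y) ^ C1.card *
        ∑ C2 ∈ (Ico m n).powerset.filter (fun C2 => 0 + C2.card ≤ i), (1 / Y) ^ C2.card :=
    fun C1 => by rw [mul_sum]
  simp only [e1]
  rw [← sum_mul, sum_pow_card, Nat.card_Ico]
  have e2 : (2 : ℝ) ^ m = 2 ^ x * 2 ^ (m - x) := by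
    rw [← pow_add]; congr 1; omega
  calc (2 : ℝ) ^ x * ((1 + 1 / Y) ^ (m - x) *
        ∑ C2 ∈ (Ico m n).powerset.filter (fun C2 => 0 + C2.card ≤ i), (1 / Y) ^ C2.card)
      ≤ 2 ^ x * ((1 + 1 / Y) ^ (m - x) *
        (1 / (1 - Λ * Y) * ((n - m).choose i * (1 / Y) ^ i))) := by gcongr
    _ = _ := by
        have e3 : (2 : ℝ) ^ (m - x) * ((1 + 1 / Y) / 2) ^ (m - x) = (1 + 1 / Y) ^ (m - x) := by
          rw [← mul_pow, mul_div_cancel₀ _ (by norm_num : (2 : ℝ) ≠ 0)]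
        rw [e2, ← e3]
        ring

end Pool.Agent.H69.EF
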