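import Mathlib
import Pool.Agent.H69.EF.Moment

set_option autoImplicit false

open Finset

namespace Pool.Agent.H69.EF

open Pool.Agent.H93.EF

/-- first moment bound, both sides of the level -/
theorem moment {n m x i t : ℕ} {Λ Y : ℝ} (hΛ0 : 0 ≤ Λ) (hY : 0 < Y) (hΛY : Λ * Y < 1)
    (hf : Fast t i Λ) (hxn : x + t ≤ n) (hmn : m + t ≤ n) :
    ∑ D ∈ lev n m i, (1 / Y) ^ suf x D ≤
      (2 ^ m * (n - m).choose i) * ((1 / (1 - Λ * Y)) * (1 / Y) ^ i *
        ((1 + Λ * Y) ^ (x - m) * ((1 + 1 / Y) / 2) ^ (m - x))) := by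
  rcases le_total m x with h | h
  · have h1 := moment_right hΛ0 hY hΛY hf h hxn
    have e1 : m - x = 0 := by omega
    rw [e1, pow_zero, mul_one]
    refine h1.trans (le_of_eq (by ring))
  · have h1 := moment_left hΛ0 hY hΛY hf h hmn
    have e1 : x - m = 0 := by omega
    rw [e1, pow_zero, one_mul]
    refine h1.trans (le_of_eq (by ring))

theorem sum_half_dist (m N : ℕ) :
    ∑ x ∈ range N, (1 / 2 : ℝ) ^ ((x - m) + (m - x)) ≤ 4 := by
  have h0 : ∀ x ∈ range (m + N), x ∉ range N → (0 : ℝ) ≤ (1 / 2 : ℝ) ^ ((x - m) + (m - x)) :=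
    fun x _ _ => by positivity
  have h1 : ∑ x ∈ range N, (1 / 2 : ℝ) ^ ((x - m) + (m - x)) ≤
      ∑ x ∈ range (m + N), (1 / 2 : ℝ) ^ ((x - m) + (m - x)) :=
    sum_le_sum_of_subset_of_nonneg (range_subset_range.mpr (by omega)) h0
  have h2 : ∑ x ∈ range (m + N), (1 / 2 : ℝ) ^ ((x - m) + (m - x)) =
      ∑ x ∈ range m, (1 / 2 : ℝ) ^ (m - x) + ∑ x ∈ range N, (1 / 2 : ℝ) ^ x := by
    rw [sum_range_add]
    congr 1
    · refine sum_congr rfl (fun x hx => ?_)
      rw [mem_range] at hx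
      congr 1
      omega
    · refine sum_congr rfl (fun x _ => ?_)
      congr 1
      omega
  have hgeom : ∀ M : ℕ, ∑ x ∈ range M, (1 / 2 : ℝ) ^ x ≤ 2 := by
    intro M
    have := geom_sum_Ico_le_of_lt_one (x := (1 / 2 : ℝ)) (m := 0) (n := M) (by norm_num)
      (by norm_num)
    rw [← range_eq_Ico] at this
    norm_num at this ⊢
    exact this
  have h3 : ∑ x ∈ range m, (1 / 2 : ℝ) ^ (m - x) ≤ 2 := by
    have h4 : ∑ x ∈ range m, (1 / 2 : ℝ) ^ (m - x) ≤ ∑ x ∈ range m, (1 / 2 : ℝ) ^ (m - 1 - x) := by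
      refine sum_le_sum (fun x hx => ?_)
      rw [mem_range] at hx
      exact pow_le_pow_of_le_one (by norm_num) (by norm_num) (by omega)
    rw [sum_range_reflect (fun x => (1 / 2 : ℝ) ^ x) m] at h4
    exact h4.trans (hgeom m)
  have h5 := hgeom N
  linarith

/-- the product over the two blocks of indices -/
theorem prod_two {a b : ℕ} (u v : ℝ) :
    ∏ l : Fin (a + b), (if (l : ℕ) < a then u else v) = u ^ a * v ^ b := by
  rw [Fin.prod_univ_add]
  congr 1
  · have : ∀ i : Fin a, (if ((Fin.castAdd b i : Fin (a + b)) : ℕ) < a then u else v) = u := by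
      intro i
      rw [if_pos (by simp)]
    simp only [this, prod_const, card_univ, Fintype.card_fin]
  · have : ∀ i : Fin b, (if ((Fin.natAdd a i : Fin (a + b)) : ℕ) < a then u else v) = v := by
      intro i
      rw [if_neg (by simp)]
    simp only [this, prod_const, card_univ, Fintype.card_fin]

/-- numerical core: the contribution of one place `x` -/
theorem bracket {k s i l a b x : ℕ} {Λ Y : ℝ} (hΛ0 : 0 ≤ Λ) (hY : 1 ≤ Y) (hab : a + b = k)
    (his : i + l ≤ s) (hx : x ≤ k * s)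
    (hq1 : (1 + Λ * Y) ^ k ≤ Y / 2) (hq2 : Y * ((1 + 1 / Y) / 2) ^ a ≤ 1 / 2) :
    Y ^ (k * s - x) * (((1 / Y) ^ i *
        ((1 + Λ * Y) ^ (x - k * (s - i)) * ((1 + 1 / Y) / 2) ^ (k * (s - i) - x))) ^ a *
      ((1 / Y) ^ (i + l) * ((1 + Λ * Y) ^ (x - k * (s - (i + l))) *
        ((1 + 1 / Y) / 2) ^ (k * (s - (i + l)) - x))) ^ b) ≤
      (1 / Y) ^ (b * l) * (1 + Λ * Y) ^ (b * (k * l)) *
        (1 / 2 : ℝ) ^ ((x - k * (s - i)) + (k * (s - i) - x)) := by
  have hY0 : 0 < Y := by linarith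
  have hΛY0 : 0 ≤ Λ * Y := mul_nonneg hΛ0 hY0.le
  set α := 1 + Λ * Y with hα
  have hα1 : 1 ≤ α := by rw [hα]; linarith
  set r := (1 + 1 / Y) / 2 with hr
  have hr0 : 0 ≤ r := by rw [hr]; positivity
  have hr1 : r ≤ 1 := by
    rw [hr]
    have : 1 / Y ≤ 1 := by rw [div_le_one hY0]; exact hY
    linarith
  set m := k * (s - i) with hm
  set m' := k * (s - (i + l)) with hm'
  have hmm : m = m' + k * l := by
    rw [hm, hm', ← mul_add]; congr 1; omega
  have hks : k * s = m + k * i := by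
    rw [hm, ← mul_add]; congr 1; omega
  have hYY : Y * (1 / Y) = 1 := mul_one_div_cancel hY0.ne'
  have hZ0 : 0 ≤ 1 / Y := by positivity
  have hexp : (1 / Y) ^ (i * a) * (1 / Y) ^ ((i + l) * b) =
      (1 / Y) ^ (k * i) * (1 / Y) ^ (b * l) := by
    rw [← pow_add, ← pow_add]
    congr 1
    rw [← hab]; ring
  rw [mul_pow, mul_pow, mul_pow, mul_pow, ← pow_mul, ← pow_mul, ← pow_mul, ← pow_mul, ← pow_mul,
    ← pow_mul]
  have hLHS : Y ^ (k * s - x) * ((1 / Y) ^ (i * a) * (α ^ ((x - m) * a) * r ^ ((m - x) * a)) *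
      ((1 / Y) ^ ((i + l) * b) * (α ^ ((x - m') * b) * r ^ ((m' - x) * b)))) =
      (Y ^ (k * s - x) * (1 / Y) ^ (k * i)) * (1 / Y) ^ (b * l) *
        (α ^ ((x - m) * a + (x - m') * b) * r ^ ((m - x) * a) * r ^ ((m' - x) * b)) := by
    rw [pow_add]
    calc _ = Y ^ (k * s - x) * ((1 / Y) ^ (i * a) * (1 / Y) ^ ((i + l) * b)) *
          (α ^ ((x - m) * a) * α ^ ((x - m') * b) * r ^ ((m - x) * a) * r ^ ((m' - x) * b)) := by
          ring
      _ = _ := by rw [hexp]; ring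
  rw [hLHS]
  rcases le_total m x with h | h
  · -- right of the level
    obtain ⟨u, rfl⟩ : ∃ u, x = m + u := ⟨x - m, by omega⟩
    have e1 : k * s - (m + u) = k * i - u := by omega
    have e2 : m + u - m = u := by omega
    have e3 : m + u - m' = u + k * l := by omega
    have e4 : m - (m + u) = 0 := by omega
    have e5 : m' - (m + u) = 0 := by omega
    rw [e1, e2, e3, e4, e5, zero_mul, zero_mul, pow_zero, mul_one, mul_one, add_zero]
    have e6 : Y ^ (k * i - u) * (1 / Y) ^ (k * i) = (1 / Y) ^ u := by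
      have : k * i = (k * i - u) + u := by omega
      conv_lhs => rw [this, pow_add, Nat.add_sub_cancel]
      rw [← mul_assoc, ← mul_pow, hYY, one_pow, one_mul]
    have e7 : u * a + (u + k * l) * b = k * u + b * (k * l) := by rw [← hab]; ring
    rw [e6, e7, pow_add]
    have h1 : (1 / Y) ^ u * α ^ (k * u) ≤ (1 / 2) ^ u := by
      rw [pow_mul, ← mul_pow]
      refine pow_le_pow_left₀ (by positivity) ?_ _
      calc 1 / Y * α ^ k ≤ 1 / Y * (Y / 2) := mul_le_mul_of_nonneg_left hq1 hZ0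
        _ = 1 / 2 := by field_simp
    calc (1 / Y) ^ u * (1 / Y) ^ (b * l) * (α ^ (k * u) * α ^ (b * (k * l)))
        = ((1 / Y) ^ (b * l) * α ^ (b * (k * l))) * ((1 / Y) ^ u * α ^ (k * u)) := by ring
      _ ≤ ((1 / Y) ^ (b * l) * α ^ (b * (k * l))) * (1 / 2) ^ u :=
        mul_le_mul_of_nonneg_left h1 (by positivity)
  · -- left of the level
    set v := m - x with hv
    have hxv : x = m - v := by omega
    have hvm : v ≤ m := by omega
    have e1 : k * s - x = k * i + v := by omega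
    have e2 : x - m = 0 := by omega
    rw [e1, e2, zero_mul, zero_add, zero_add]
    have e6 : Y ^ (k * i + v) * (1 / Y) ^ (k * i) = Y ^ v := by
      rw [pow_add]
      calc Y ^ (k * i) * Y ^ v * (1 / Y) ^ (k * i) = (Y * (1 / Y)) ^ (k * i) * Y ^ v := by
            rw [mul_pow]; ring
        _ = _ := by rw [hYY, one_pow, one_mul]
    rw [e6]
    have h1 : α ^ ((x - m') * b) ≤ α ^ (b * (k * l)) := by
      refine pow_le_pow_right₀ hα1 ?_
      rw [mul_comm]
      exact Nat.mul_le_mul_left _ (by omega)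
    have h2 : r ^ ((m' - x) * b) ≤ 1 := pow_le_one₀ hr0 hr1
    have h3 : Y ^ v * r ^ (v * a) ≤ (1 / 2) ^ v := by
      rw [mul_comm v a, pow_mul, ← mul_pow]
      exact pow_le_pow_left₀ (by positivity) hq2 _
    have h4 : 0 ≤ r ^ ((m' - x) * b) := pow_nonneg hr0 _
    calc Y ^ v * (1 / Y) ^ (b * l) * (α ^ ((x - m') * b) * r ^ (v * a) * r ^ ((m' - x) * b))
        = (Y ^ v * r ^ (v * a)) * (1 / Y) ^ (b * l) *
            (α ^ ((x - m') * b) * r ^ ((m' - x) * b)) := by ring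
      _ ≤ (1 / 2) ^ v * (1 / Y) ^ (b * l) * (α ^ (b * (k * l)) * 1) := by
          gcongr
      _ = _ := by ring

/-- **Two levels**: the densities of `F` in two level families cannot both be large. -/
theorem two_level {n s t i l a b : ℕ} {Λ Y : ℝ} {F : Finset (Finset ℕ)}
    (hn : n = (a + b) * s + t) (his : i + l ≤ s)
    (hFn : F ⊆ (range n).powerset) (hFK : KU (a + b) ((a + b) * s) F) (hFD : Down F)
    (hFS : Shifted F) (hΛ0 : 0 ≤ Λ) (hY : 1 ≤ Y) (hΛY : Λ * Y < 1) (hf : Fast t (i + l) Λ)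
    (hq1 : (1 + Λ * Y) ^ (a + b) ≤ Y / 2) (hq2 : Y * ((1 + 1 / Y) / 2) ^ a ≤ 1 / 2) :
    (((F.filter (fun D => (D ∩ Ico ((a + b) * (s - i)) n).card ≤ i)).card : ℝ)) ^ a *
      (((F.filter (fun D => (D ∩ Ico ((a + b) * (s - (i + l))) n).card ≤ i + l)).card : ℝ)) ^ b ≤
    (2 ^ ((a + b) * (s - i)) * ((n - (a + b) * (s - i)).choose i : ℝ)) ^ a *
      (2 ^ ((a + b) * (s - (i + l))) *
        ((n - (a + b) * (s - (i + l))).choose (i + l) : ℝ)) ^ b *
      ((1 / (1 - Λ * Y)) ^ (a + b) * ((1 / Y) ^ (b * l) *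
        (1 + Λ * Y) ^ (b * ((a + b) * l))) * 4) := by
  classical
  set k := a + b with hk
  have hY0 : 0 < Y := by linarith
  have hZ0 : 0 < 1 / Y := by positivity
  have hΛY0 : 0 ≤ Λ * Y := mul_nonneg hΛ0 hY0.le
  have hden : 0 < 1 - Λ * Y := by linarith
  set m := k * (s - i) with hm
  set m' := k * (s - (i + l)) with hm'
  set Fi := F.filter (fun D => (D ∩ Ico m n).card ≤ i) with hFi
  set Fj := F.filter (fun D => (D ∩ Ico m' n).card ≤ i + l) with hFj
  have hks : k * s = m + k * i := by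
    rw [hm, ← mul_add]; congr 1; omega
  have hks' : k * s = m' + k * (i + l) := by
    rw [hm', ← mul_add]; congr 1; omega
  set LV : Fin k → Finset (Finset ℕ) := fun q => if (q : ℕ) < a then Fi else Fj with hLV
  have hLVF : ∀ q, LV q ⊆ F := by
    intro q
    simp only [hLV]
    split_ifs
    · exact filter_subset _ _
    · exact filter_subset _ _
  -- every tuple touches
  have hpt : ∀ f ∈ Fintype.piFinset LV, (1 : ℝ) ≤ ∑ x ∈ range (k * s + 1),
      Y ^ (k * s - x) * ∏ q, (1 / Y) ^ suf x (f q) := by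
    intro f hfm
    rw [Fintype.mem_piFinset] at hfm
    obtain ⟨x, hx, hxs⟩ := touch hFD hFS hFK f (fun q => hLVF q (hfm q))
    have h1 : (1 : ℝ) ≤ Y ^ (k * s - x) * ∏ q, (1 / Y) ^ suf x (f q) := by
      rw [prod_pow_eq_pow_sum]
      have e1 : k * s - x = (k * s - x - ∑ q, suf x (f q)) + ∑ q, suf x (f q) := by omega
      rw [e1, pow_add, mul_assoc, ← mul_pow, mul_one_div_cancel hY0.ne', one_pow, mul_one]
      exact one_le_pow₀ hY
    exact h1.trans (single_le_sum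
      (f := fun x => Y ^ (k * s - x) * ∏ q, (1 / Y) ^ suf x (f q))
      (fun x _ => by positivity) (mem_range.mpr (by omega)))
  have hcard : ((Fintype.piFinset LV).card : ℝ) = (Fi.card : ℝ) ^ a * (Fj.card : ℝ) ^ b := by
    rw [Fintype.card_piFinset]
    push_cast
    rw [← prod_two]
    refine prod_congr rfl (fun q _ => ?_)
    simp only [hLV]
    split_ifs <;> rfl
  rw [← hcard]
  have h1 : ((Fintype.piFinset LV).card : ℝ) ≤ ∑ f ∈ Fintype.piFinset LV,
      ∑ x ∈ range (k * s + 1), Y ^ (k * s - x) * ∏ q, (1 / Y) ^ suf x (f q) := by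
    rw [card_eq_sum_ones]
    push_cast
    exact sum_le_sum hpt
  refine h1.trans ?_
  rw [sum_comm]
  set Ai : ℝ := 2 ^ m * ((n - m).choose i : ℝ) with hAi
  set Aj : ℝ := 2 ^ m' * ((n - m').choose (i + l) : ℝ) with hAj
  have hAi0 : 0 ≤ Ai := by positivity
  have hAj0 : 0 ≤ Aj := by positivity
  set K0 : ℝ := 1 / (1 - Λ * Y) with hK0
  have hK00 : 0 ≤ K0 := by positivity
  have hx1 : ∀ x ∈ range (k * s + 1), ∑ f ∈ Fintype.piFinset LV,
      Y ^ (k * s - x) * ∏ q, (1 / Y) ^ suf x (f q) ≤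
      (Ai ^ a * Aj ^ b) * (K0 ^ k * ((1 / Y) ^ (b * l) * (1 + Λ * Y) ^ (b * (k * l)))) *
        (1 / 2 : ℝ) ^ ((x - m) + (m - x)) := by
    intro x hx
    rw [mem_range] at hx
    rw [← mul_sum]
    have h2 : ∑ f ∈ Fintype.piFinset LV, ∏ q, (1 / Y) ^ suf x (f q) =
        ∏ q, ∑ D ∈ LV q, (1 / Y) ^ suf x D := by
      rw [prod_univ_sum]
    rw [h2]
    have h3 : ∀ q : Fin k, ∑ D ∈ LV q, (1 / Y) ^ suf x D ≤
        (if (q : ℕ) < a then Ai * (K0 * (1 / Y) ^ i *
            ((1 + Λ * Y) ^ (x - m) * ((1 + 1 / Y) / 2) ^ (m - x)))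
          else Aj * (K0 * (1 / Y) ^ (i + l) *
            ((1 + Λ * Y) ^ (x - m') * ((1 + 1 / Y) / 2) ^ (m' - x)))) := by
      intro q
      simp only [hLV]
      split_ifs with hq
      · refine le_trans ?_ (moment hΛ0 hY0 hΛY (fast_mono hf (by omega)) (by omega) (by omega))
        refine sum_le_sum_of_subset_of_nonneg ?_ (fun D _ _ => by positivity)
        intro D hD
        have hD' := mem_filter.mp hD
        exact mem_filter.mpr ⟨hFn hD'.1, hD'.2⟩
      · refine le_trans ?_ (moment hΛ0 hY0 hΛY hf (by omega) (by omega))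
        refine sum_le_sum_of_subset_of_nonneg ?_ (fun D _ _ => by positivity)
        intro D hD
        have hD' := mem_filter.mp hD
        exact mem_filter.mpr ⟨hFn hD'.1, hD'.2⟩
    have h4 : ∏ q, ∑ D ∈ LV q, (1 / Y) ^ suf x D ≤
        (Ai * (K0 * (1 / Y) ^ i *
            ((1 + Λ * Y) ^ (x - m) * ((1 + 1 / Y) / 2) ^ (m - x)))) ^ a *
        (Aj * (K0 * (1 / Y) ^ (i + l) *
            ((1 + Λ * Y) ^ (x - m') * ((1 + 1 / Y) / 2) ^ (m' - x)))) ^ b := by
      rw [← prod_two]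
      exact prod_le_prod (fun q _ => sum_nonneg (fun D _ => by positivity)) (fun q _ => h3 q)
    have h5 := bracket (x := x) hΛ0 hY hk.symm his (by omega) hq1 hq2
    rw [← hm, ← hm'] at h5
    calc Y ^ (k * s - x) * ∏ q, ∑ D ∈ LV q, (1 / Y) ^ suf x D
        ≤ Y ^ (k * s - x) * ((Ai * (K0 * (1 / Y) ^ i *
            ((1 + Λ * Y) ^ (x - m) * ((1 + 1 / Y) / 2) ^ (m - x)))) ^ a *
        (Aj * (K0 * (1 / Y) ^ (i + l) *
            ((1 + Λ * Y) ^ (x - m') * ((1 + 1 / Y) / 2) ^ (m' - x)))) ^ b) :=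
          mul_le_mul_of_nonneg_left h4 (by positivity)
      _ = (Ai ^ a * Aj ^ b * K0 ^ k) * (Y ^ (k * s - x) * (((1 / Y) ^ i *
            ((1 + Λ * Y) ^ (x - m) * ((1 + 1 / Y) / 2) ^ (m - x))) ^ a *
          ((1 / Y) ^ (i + l) * ((1 + Λ * Y) ^ (x - m') *
            ((1 + 1 / Y) / 2) ^ (m' - x))) ^ b)) := by
          have e1 : K0 ^ k = K0 ^ a * K0 ^ b := by rw [hk, pow_add]
          rw [e1]
          simp only [mul_pow]
          ring
      _ ≤ (Ai ^ a * Aj ^ b * K0 ^ k) * ((1 / Y) ^ (b * l) * (1 + Λ * Y) ^ (b * (k * l)) *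
            (1 / 2 : ℝ) ^ ((x - m) + (m - x))) :=
          mul_le_mul_of_nonneg_left h5 (by positivity)
      _ = _ := by ring
  refine (sum_le_sum hx1).trans ?_
  rw [← mul_sum]
  have h6 := sum_half_dist m (k * s + 1)
  calc (Ai ^ a * Aj ^ b) * (K0 ^ k * ((1 / Y) ^ (b * l) * (1 + Λ * Y) ^ (b * (k * l)))) *
        ∑ x ∈ range (k * s + 1), (1 / 2 : ℝ) ^ ((x - m) + (m - x))
      ≤ (Ai ^ a * Aj ^ b) * (K0 ^ k * ((1 / Y) ^ (b * l) * (1 + Λ * Y) ^ (b * (k * l)))) * 4 :=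
        mul_le_mul_of_nonneg_left h6 (by positivity)
    _ = _ := by ring

end Pool.Agent.H69.EF
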