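import Mathlib
import Pool.Agent.H69.EF.TwoLevel

set_option autoImplicit false

open Finset

namespace Pool.Agent.H69.EF

open Pool.Agent.H93.EF

/-- the trace of `F` over `C` on the first `m` points -/
def Tr (F : Finset (Finset ℕ)) (m : ℕ) (C : Finset ℕ) : Finset (Finset ℕ) :=
  (range m).powerset.filter (fun H => H ∪ C ∈ F)

/-- the lossy sets of size `i` -/
def Rc (F : Finset (Finset ℕ)) (n m i : ℕ) : Finset (Finset ℕ) :=
  (powersetCard i (Ico m n)).filter (fun C => 2 * (Tr F m C).card ≤ 2 ^ m)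

/-- the heavy sets -/
def PP (F : Finset (Finset ℕ)) (n m i : ℕ) : Finset (Finset ℕ) :=
  (Ico m n).powerset.filter (fun C => i < C.card ∧ C ∈ F)

theorem card_Tr_le (F : Finset (Finset ℕ)) (m : ℕ) (C : Finset ℕ) : (Tr F m C).card ≤ 2 ^ m := by
  have h := card_le_card (filter_subset (fun H => H ∪ C ∈ F) (range m).powerset)
  rwa [card_powerset, card_range] at h

/-- loss inside the level family -/
theorem inside_le {F : Finset (Finset ℕ)} {n m i : ℕ} (hFn : F ⊆ (range n).powerset) :
    2 * (F.filter (fun D => (D ∩ Ico m n).card ≤ i)).card + 2 ^ m * (Rc F n m i).card ≤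
      2 * (2 ^ m * ∑ v ∈ range (i + 1), (n - m).choose v) := by
  classical
  set 𝒞 := (Ico m n).powerset.filter (fun C => C.card ≤ i) with h𝒞
  have hcard𝒞 : 𝒞.card = ∑ v ∈ range (i + 1), (n - m).choose v := by
    rw [h𝒞, card_powerset_filter_card_le, Nat.card_Ico]
  have h1 : (F.filter (fun D => (D ∩ Ico m n).card ≤ i)).card ≤ ∑ C ∈ 𝒞, (Tr F m C).card := by
    rw [← card_sigma]
    refine card_le_card_of_injOn (fun D => (⟨D ∩ Ico m n, D ∩ range m⟩ : Σ _ : Finset ℕ, Finset ℕ))
      ?_ ?_
    · intro D hD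
      have hD' := mem_coe.mp hD
      rw [mem_filter] at hD'
      rw [mem_coe, mem_sigma]
      refine ⟨mem_filter.mpr ⟨mem_powerset.mpr inter_subset_right, hD'.2⟩, ?_⟩
      refine mem_filter.mpr ⟨mem_powerset.mpr inter_subset_right, ?_⟩
      rw [← split_eq (mem_powerset.mp (hFn hD'.1))]
      exact hD'.1
    · intro D hD E hE h
      have hD' := mem_powerset.mp (hFn (mem_filter.mp (mem_coe.mp hD)).1)
      have hE' := mem_powerset.mp (hFn (mem_filter.mp (mem_coe.mp hE)).1)
      have e1 : D ∩ Ico m n = E ∩ Ico m n := congrArg (fun z => z.1) h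
      have e2 : D ∩ range m = E ∩ range m := congrArg (fun z => z.2) h
      rw [split_eq (m := m) hD', split_eq (m := m) hE', e1, e2]
  have hsub : Rc F n m i ⊆ 𝒞 := by
    intro C hC
    have hC' := mem_powersetCard.mp (mem_filter.mp hC).1
    exact mem_filter.mpr ⟨mem_powerset.mpr hC'.1, hC'.2.le⟩
  have h2 : ∑ C ∈ 𝒞, (2 * (Tr F m C).card + if C ∈ Rc F n m i then 2 ^ m else 0) ≤
      ∑ _C ∈ 𝒞, 2 * 2 ^ m := by
    refine sum_le_sum (fun C _ => ?_)
    split_ifs with h
    · have := (mem_filter.mp h).2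
      omega
    · have := card_Tr_le F m C
      omega
  have h3 : ∑ C ∈ 𝒞, (if C ∈ Rc F n m i then 2 ^ m else 0) = 2 ^ m * (Rc F n m i).card := by
    rw [← sum_filter, sum_const, smul_eq_mul, mul_comm]
    congr 2
    ext C
    rw [mem_filter]
    exact ⟨fun h => h.2, fun h => ⟨hsub h, h⟩⟩
  rw [sum_add_distrib, h3, ← mul_sum, sum_const, smul_eq_mul, hcard𝒞] at h2
  have h4 : 2 * (2 ^ m * ∑ v ∈ range (i + 1), (n - m).choose v) =
      (∑ v ∈ range (i + 1), (n - m).choose v) * (2 * 2 ^ m) := by ring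
  rw [h4]
  omega

/-- the members outside the level family -/
theorem outside_le {F : Finset (Finset ℕ)} {n m i : ℕ} (hFn : F ⊆ (range n).powerset)
    (hFD : Down F) :
    (F.filter (fun D => ¬ (D ∩ Ico m n).card ≤ i)).card ≤ 2 ^ m * (PP F n m i).card := by
  classical
  have h1 : 2 ^ m * (PP F n m i).card = ((range m).powerset ×ˢ PP F n m i).card := by
    rw [card_product, card_powerset, card_range]
  rw [h1]
  refine card_le_card_of_injOn (fun D => (D ∩ range m, D ∩ Ico m n)) ?_ ?_
  · intro D hD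
    have hD' := mem_filter.mp (mem_coe.mp hD)
    rw [mem_coe, mem_product]
    refine ⟨mem_powerset.mpr inter_subset_right, ?_⟩
    refine mem_filter.mpr ⟨mem_powerset.mpr inter_subset_right, ?_, ?_⟩
    · have := hD'.2
      show i < (D ∩ Ico m n).card
      omega
    · exact hFD D hD'.1 _ inter_subset_left
  · intro D hD E hE h
    have hD' := mem_powerset.mp (hFn (mem_filter.mp (mem_coe.mp hD)).1)
    have hE' := mem_powerset.mp (hFn (mem_filter.mp (mem_coe.mp hE)).1)
    have e1 : D ∩ range m = E ∩ range m := congrArg (fun z => z.1) h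
    have e2 : D ∩ Ico m n = E ∩ Ico m n := congrArg (fun z => z.2) h
    rw [split_eq (m := m) hD', split_eq (m := m) hE', e1, e2]

theorem exact_bound {F : Finset (Finset ℕ)} {n m i : ℕ} (hFn : F ⊆ (range n).powerset)
    (hFD : Down F) (hPR : 2 * (PP F n m i).card ≤ (Rc F n m i).card) :
    F.card ≤ 2 ^ m * ∑ v ∈ range (i + 1), (n - m).choose v := by
  have h1 := inside_le (m := m) (i := i) hFn
  have h2 := outside_le (m := m) (i := i) hFn hFD
  have h3 := card_filter_add_card_filter_not (s := F) (fun D => (D ∩ Ico m n).card ≤ i)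
  have h4 : 2 * (2 ^ m * (PP F n m i).card) ≤ 2 ^ m * (Rc F n m i).card := by
    calc 2 * (2 ^ m * (PP F n m i).card) = 2 ^ m * (2 * (PP F n m i).card) := by ring
      _ ≤ _ := Nat.mul_le_mul_left _ hPR
  omega

theorem suf_anti {x y : ℕ} (h : x ≤ y) (B : Finset ℕ) : suf y B ≤ suf x B := by
  unfold suf
  refine card_le_card (fun a ha => ?_)
  rw [mem_filter] at ha ⊢
  exact ⟨ha.1, h.trans ha.2⟩

theorem suf_mono {x : ℕ} {B C : Finset ℕ} (h : B ⊆ C) : suf x B ≤ suf x C := by
  unfold suf
  exact card_le_card (filter_subset_filter _ h)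

/-- two rich traces contain complementary sets -/
theorem exists_compl {F : Finset (Finset ℕ)} {m : ℕ} {C1 C2 : Finset ℕ}
    (h1 : 2 ^ m < 2 * (Tr F m C1).card) (h2 : 2 ^ m < 2 * (Tr F m C2).card) :
    ∃ H, H ∈ Tr F m C1 ∧ (range m \ H) ∈ Tr F m C2 := by
  classical
  by_contra hcon
  push Not at hcon
  set I := (Tr F m C2).image (fun H => range m \ H) with hI
  have hinj : Set.InjOn (fun H => range m \ H) (Tr F m C2 : Set (Finset ℕ)) := by
    intro D hD E hE h
    have hD' := mem_powerset.mp (mem_filter.mp (mem_coe.mp hD)).1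
    have hE' := mem_powerset.mp (mem_filter.mp (mem_coe.mp hE)).1
    have h' : range m \ D = range m \ E := h
    rw [← Finset.sdiff_sdiff_eq_self hD', h', Finset.sdiff_sdiff_eq_self hE']
  have hIc : I.card = (Tr F m C2).card := card_image_of_injOn hinj
  have hdis : Disjoint (Tr F m C1) I := by
    rw [disjoint_left]
    intro H hH hHI
    rw [hI, mem_image] at hHI
    obtain ⟨H', hH', rfl⟩ := hHI
    refine hcon _ hH ?_
    rw [Finset.sdiff_sdiff_eq_self (mem_powerset.mp (mem_filter.mp hH').1)]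
    exact hH'
  have hsub : Tr F m C1 ∪ I ⊆ (range m).powerset := by
    refine union_subset (filter_subset _ _) ?_
    intro H hH
    rw [hI, mem_image] at hH
    obtain ⟨H', hH', rfl⟩ := hH
    rw [mem_powerset]
    exact sdiff_subset
  have h3 := card_le_card hsub
  rw [card_union_of_disjoint hdis, hIc, card_powerset, card_range] at h3
  omega

theorem suf_union_ge {x m : ℕ} (hx : x ≤ m) {H C : Finset ℕ} (_hH : H ⊆ range m) :
    suf m C + (H ∩ Ico x m).card ≤ suf x (H ∪ C) := by
  classical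
  unfold suf
  rw [← card_union_of_disjoint]
  · refine card_le_card (fun a ha => ?_)
    rw [mem_union, mem_filter, mem_inter, mem_Ico] at ha
    rw [mem_filter, mem_union]
    rcases ha with h | h
    · exact ⟨Or.inr h.1, hx.trans h.2⟩
    · exact ⟨Or.inl h.1, h.2.1⟩
  · rw [disjoint_left]
    intro a h1 h2
    rw [mem_filter] at h1
    rw [mem_inter, mem_Ico] at h2
    omega

/-- A heavy set together with rich sets touches on `[m, n)`. -/
theorem no_bal {k' s i : ℕ} {F : Finset (Finset ℕ)} (hk' : 2 ≤ k') (his : i ≤ s)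
    (hFK : KU (k' + 1) ((k' + 1) * s) F) (hFD : Down F)
    (hFS : Shifted F) {Cs : Finset ℕ} (hCs : Cs ∈ F)
    (C : Fin k' → Finset ℕ)
    (hC : ∀ j, 2 ^ ((k' + 1) * (s - i)) < 2 * (Tr F ((k' + 1) * (s - i)) (C j)).card) :
    ∃ u ≤ (k' + 1) * i, (k' + 1) * (s - i) + u + (suf ((k' + 1) * (s - i) + u) Cs +
      ∑ j, suf ((k' + 1) * (s - i) + u) (C j)) ≤ (k' + 1) * s := by
  classical
  set m := (k' + 1) * (s - i) with hm
  have hks : (k' + 1) * s = m + (k' + 1) * i := by
    rw [hm, ← mul_add]; congr 1; omega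
  let j0 : Fin k' := ⟨0, by omega⟩
  let j1 : Fin k' := ⟨1, by omega⟩
  have hj01 : j0 ≠ j1 := by
    intro h
    have := congrArg Fin.val h
    simp [j0, j1] at this
  obtain ⟨H, hH1, hH2⟩ := exists_compl (hC j0) (hC j1)
  have hHm : H ⊆ range m := mem_powerset.mp (mem_filter.mp hH1).1
  set G : Fin k' → Finset ℕ := fun j => if j = j0 then H else if j = j1 then range m \ H else ∅
    with hG
  have hGm : ∀ j, G j ⊆ range m := by
    intro j
    simp only [hG]
    split_ifs
    · exact hHm
    · exact sdiff_subset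
    · exact empty_subset _
  have hmemF : ∀ j, G j ∪ C j ∈ F := by
    intro j
    simp only [hG]
    split_ifs with h1 h2
    · rw [h1]; exact (mem_filter.mp hH1).2
    · rw [h2]; exact (mem_filter.mp hH2).2
    · rw [empty_union]
      have hpos : 0 < (Tr F m (C j)).card := by
        have h3 := hC j
        by_contra h4
        have h5 : (Tr F m (C j)).card = 0 := by omega
        rw [h5, mul_zero] at h3
        exact Nat.not_lt_zero _ h3
      obtain ⟨H', hH'⟩ := card_pos.mp hpos
      exact hFD _ (mem_filter.mp hH').2 _ subset_union_right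
  set A : Fin (k' + 1) → Finset ℕ := Fin.cons Cs (fun j => G j ∪ C j) with hA
  have hAF : ∀ l, A l ∈ F := by
    intro l
    refine Fin.cases ?_ (fun j => ?_) l
    · rw [hA, Fin.cons_zero]; exact hCs
    · rw [hA, Fin.cons_succ]; exact hmemF j
  obtain ⟨x, hx, hxs⟩ := touch hFD hFS hFK A hAF
  rw [Fin.sum_univ_succ] at hxs
  simp only [hA, Fin.cons_zero, Fin.cons_succ] at hxs
  rcases le_total m x with h | h
  · refine ⟨x - m, by omega, ?_⟩
    have e1 : m + (x - m) = x := by omega
    rw [e1]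
    have h2 : ∑ j, suf x (C j) ≤ ∑ j, suf x (G j ∪ C j) :=
      sum_le_sum (fun j _ => suf_mono subset_union_right)
    omega
  · refine ⟨0, Nat.zero_le _, ?_⟩
    rw [add_zero]
    have h1 := suf_anti h Cs
    have h2 : ∑ j, (suf m (C j) + (G j ∩ Ico x m).card) ≤ ∑ j, suf x (G j ∪ C j) :=
      sum_le_sum (fun j _ => suf_union_ge h (hGm j))
    rw [sum_add_distrib] at h2
    have h3 : m - x ≤ ∑ j, (G j ∩ Ico x m).card := by
      have h4 : ∑ j ∈ ({j0, j1} : Finset (Fin k')), (G j ∩ Ico x m).card ≤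
          ∑ j, (G j ∩ Ico x m).card := sum_le_sum_of_subset (subset_univ _)
      rw [sum_pair hj01] at h4
      have h5 : Ico x m ⊆ (G j0 ∩ Ico x m) ∪ (G j1 ∩ Ico x m) := by
        intro a ha
        have ha' := mem_Ico.mp ha
        rw [mem_union, mem_inter, mem_inter]
        simp only [hG, if_true, if_neg hj01.symm]
        by_cases haH : a ∈ H
        · exact Or.inl ⟨haH, ha⟩
        · exact Or.inr ⟨mem_sdiff.mpr ⟨mem_range.mpr ha'.2, haH⟩, ha⟩
      have h6 := (card_le_card h5).trans (card_union_le _ _)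
      rw [Nat.card_Ico] at h6
      omega
    omega

end Pool.Agent.H69.EF
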