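import Mathlib
import Pool.Agent.H69.EF.Exact

set_option autoImplicit false

open Finset

namespace Pool.Agent.H69.EF

open Pool.Agent.H93.EF

/-- Splitting a sum over subsets of `[p, n)` at `q`. -/
theorem sum_split_le' {n p q : ℕ} {S : Finset (Finset ℕ)}
    (hS : S ⊆ (Ico p n).powerset) (g : Finset ℕ → Finset ℕ → ℝ) (hg : ∀ C1 C2, 0 ≤ g C1 C2)
    (T : Finset ℕ → Finset (Finset ℕ)) (hT : ∀ D ∈ S, D ∩ Ico q n ∈ T (D ∩ Ico p q)) :
    ∑ D ∈ S, g (D ∩ Ico p q) (D ∩ Ico q n) ≤
      ∑ C1 ∈ (Ico p q).powerset, ∑ C2 ∈ T C1, g C1 C2 := by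
  classical
  set U : Finset (Σ _ : Finset ℕ, Finset ℕ) := (Ico p q).powerset.sigma T with hU
  have h1 : ∑ C1 ∈ (Ico p q).powerset, ∑ C2 ∈ T C1, g C1 C2 = ∑ z ∈ U, g z.1 z.2 := by
    rw [hU, sum_sigma]
  rw [h1]
  set Φ : Finset ℕ → (Σ _ : Finset ℕ, Finset ℕ) :=
    fun D => ⟨D ∩ Ico p q, D ∩ Ico q n⟩ with hΦ
  have hinj : Set.InjOn Φ S := by
    intro D hD E hE h
    have hD' := mem_powerset.mp (hS (mem_coe.mp hD))
    have hE' := mem_powerset.mp (hS (mem_coe.mp hE))
    have e2 : D ∩ Ico p q = E ∩ Ico p q := congrArg (fun z => z.1) h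
    have e3 : D ∩ Ico q n = E ∩ Ico q n := congrArg (fun z => z.2) h
    ext x
    have f2 := congrArg (fun S => x ∈ S) e2
    have f3 := congrArg (fun S => x ∈ S) e3
    simp only [mem_inter, mem_Ico, eq_iff_iff] at f2 f3
    constructor
    · intro hx
      have hxn := mem_Ico.mp (hD' hx)
      by_cases h2 : x < q
      · exact (f2.mp ⟨hx, hxn.1, h2⟩).1
      · exact (f3.mp ⟨hx, by omega, hxn.2⟩).1
    · intro hx
      have hxn := mem_Ico.mp (hE' hx)
      by_cases h2 : x < q
      · exact (f2.mpr ⟨hx, hxn.1, h2⟩).1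
      · exact (f3.mpr ⟨hx, by omega, hxn.2⟩).1
  have h2 : ∑ D ∈ S, g (D ∩ Ico p q) (D ∩ Ico q n) = ∑ z ∈ S.image Φ, g z.1 z.2 := by
    rw [sum_image hinj]
  rw [h2]
  refine sum_le_sum_of_subset_of_nonneg ?_ (fun z _ _ => hg _ _)
  intro z hz
  rw [mem_image] at hz
  obtain ⟨D, hD, rfl⟩ := hz
  rw [hU, mem_sigma, mem_powerset]
  exact ⟨inter_subset_right, hT D hD⟩

/-- exponential moment of the number of early elements of an `i`-set -/
theorem moment_fixed {n p q i t : ℕ} {Λ z : ℝ} (hΛ0 : 0 ≤ Λ) (hz : 0 ≤ z)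
    (hf : Fast t i Λ) (hpq : p ≤ q) (hqn : q + t ≤ n) :
    ∑ C ∈ powersetCard i (Ico p n), z ^ (C ∩ Ico p q).card ≤
      (n - p).choose i * (1 + z * Λ) ^ (q - p) := by
  have h1 := sum_split_le' (S := powersetCard i (Ico p n)) (p := p) (q := q) (n := n)
    (fun C hC => mem_powerset.mpr (mem_powersetCard.mp hC).1)
    (fun C1 _ => z ^ C1.card) (fun _ _ => by positivity)
    (fun C1 => (Ico q n).powerset.filter (fun C2 => C1.card + C2.card = i)) (by
      intro D hD
      have hD' := mem_powersetCard.mp hD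
      rw [mem_filter, mem_powerset]
      refine ⟨inter_subset_right, ?_⟩
      rw [← card_inter_Ico_split hpq (by omega), inter_eq_left.mpr hD'.1]
      exact hD'.2)
  refine h1.trans ?_
  have h2 : ∀ C1 ∈ (Ico p q).powerset, ∑ C2 ∈ (Ico q n).powerset.filter
      (fun C2 => C1.card + C2.card = i), z ^ C1.card ≤ (z * Λ) ^ C1.card * (n - q).choose i := by
    intro C1 _
    rw [sum_const, nsmul_eq_mul]
    have h3 : (((Ico q n).powerset.filter (fun C2 => C1.card + C2.card = i)).card : ℝ) ≤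
        Λ ^ C1.card * (n - q).choose i := by
      by_cases hc : C1.card ≤ i
      · have e1 : (Ico q n).powerset.filter (fun C2 => C1.card + C2.card = i) =
            powersetCard (i - C1.card) (Ico q n) := by
          ext C2
          rw [mem_filter, mem_powerset, mem_powersetCard]
          constructor
          · rintro ⟨h, h'⟩; exact ⟨h, by omega⟩
          · rintro ⟨h, h'⟩; exact ⟨h, by omega⟩
        rw [e1, card_powersetCard, Nat.card_Ico]
        exact fast_pow hΛ0 hf (by omega) C1.card (i - C1.card) (by omega)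
      · have e1 : (Ico q n).powerset.filter (fun C2 => C1.card + C2.card = i) = ∅ := by
          rw [filter_eq_empty_iff]
          intro C2 _
          omega
        rw [e1, card_empty]
        push_cast
        positivity
    calc (((Ico q n).powerset.filter (fun C2 => C1.card + C2.card = i)).card : ℝ) * z ^ C1.card
        ≤ (Λ ^ C1.card * (n - q).choose i) * z ^ C1.card :=
          mul_le_mul_of_nonneg_right h3 (by positivity)
      _ = _ := by rw [mul_pow]; ring
  refine (sum_le_sum h2).trans ?_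
  rw [← sum_mul, sum_pow_card, Nat.card_Ico, mul_comm]
  have h5 : ((n - q).choose i : ℝ) ≤ (n - p).choose i := by
    exact_mod_cast Nat.choose_le_choose i (by omega)
  exact mul_le_mul_of_nonneg_right h5 (by positivity)

theorem geom_half (M : ℕ) : ∑ x ∈ range M, (1 / 2 : ℝ) ^ x ≤ 2 := by
  have := geom_sum_Ico_le_of_lt_one (x := (1 / 2 : ℝ)) (m := 0) (n := M) (by norm_num)
    (by norm_num)
  rw [← range_eq_Ico] at this
  norm_num at this ⊢
  exact this

theorem prod_one_coord {k' : ℕ} (j : Fin k') (u v : ℕ) :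
    ∏ q : Fin k', (if q = j then u else v) = u * v ^ (k' - 1) := by
  classical
  rw [← mul_prod_erase univ _ (mem_univ j), if_pos rfl]
  congr 1
  rw [prod_congr rfl (g := fun _ => v) (fun q hq => if_neg (ne_of_mem_erase hq)), prod_const,
    card_erase_of_mem (mem_univ j), card_univ, Fintype.card_fin]

/-- If some heavy set has no bad place beyond `y` then there are many lossy sets. -/
theorem many_lossy {k' s i n t y : ℕ} {Λ : ℝ} {F : Finset (Finset ℕ)} (hk' : 2 ≤ k')
    (his : i ≤ s) (hn : n = (k' + 1) * s + t) (hFK : KU (k' + 1) ((k' + 1) * s) F)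
    (hFD : Down F) (hFS : Shifted F) (hΛ0 : 0 ≤ Λ) (hf : Fast t i Λ)
    (hnum : (1 + 16 * Λ) ^ k' ≤ 2) {Cs : Finset ℕ}
    (hCs : Cs ∈ PP F n ((k' + 1) * (s - i)) i)
    (hgood : ∀ u, y < u → u ≤ (k' + 1) * i →
      2 * (Cs ∩ Ico ((k' + 1) * (s - i)) ((k' + 1) * (s - i) + u)).card + 1 <
        2 * (Cs.card - i) + u) :
    3 * (n - ((k' + 1) * (s - i) + y)).choose i ≤
      4 * (k' * (Rc F n ((k' + 1) * (s - i)) i).card) := by
  classical
  set m := (k' + 1) * (s - i) with hm
  have hks : (k' + 1) * s = m + (k' + 1) * i := by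
    rw [hm, ← mul_add]; congr 1; omega
  obtain ⟨hCs1, hCs2, hCs3⟩ := mem_filter.mp hCs
  rw [mem_powerset] at hCs1
  set PY := powersetCard i (Ico (m + y) n) with hPY
  have hPYc : PY.card = (n - (m + y)).choose i := by rw [hPY, card_powersetCard, Nat.card_Ico]
  rw [← hPYc]
  rcases Nat.eq_zero_or_pos PY.card with h0 | hpos
  · rw [h0]; exact Nat.zero_le _
  set TT : Finset (Fin k' → Finset ℕ) := Fintype.piFinset (fun _ => PY) with hTT
  have hTTc : TT.card = PY.card ^ k' := by
    rw [hTT, Fintype.card_piFinset, prod_const, card_univ, Fintype.card_fin]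
  set E : (Fin k' → Finset ℕ) → ℕ → ℕ := fun f u => ∑ j, (f j ∩ Ico (m + y) (m + u)).card with hE
  set U := Ico (y + 1) ((k' + 1) * i + 1) with hU
  set Tb := TT.filter (fun f => ∃ u ∈ U, u < 2 * E f u) with hTb
  -- few tuples with many early elements
  have hTbc : (4 : ℝ) * Tb.card ≤ TT.card := by
    have h1 : ∀ f ∈ Tb, (1 : ℝ) ≤ ∑ u ∈ U, (1 / 4 : ℝ) ^ (u + 1) * ∏ j,
        (16 : ℝ) ^ (f j ∩ Ico (m + y) (m + u)).card := by
      intro f hfm
      obtain ⟨u, hu, hu2⟩ := (mem_filter.mp hfm).2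
      have h2 : (1 : ℝ) ≤ (1 / 4 : ℝ) ^ (u + 1) * ∏ j,
          (16 : ℝ) ^ (f j ∩ Ico (m + y) (m + u)).card := by
        rw [prod_pow_eq_pow_sum]
        have h3 : (4 : ℝ) ^ (u + 1) ≤ (16 : ℝ) ^ (∑ j, (f j ∩ Ico (m + y) (m + u)).card) := by
          have e1 : (16 : ℝ) = 4 ^ 2 := by norm_num
          rw [e1, ← pow_mul]
          refine pow_le_pow_right₀ (by norm_num) ?_
          have : u < 2 * ∑ j, (f j ∩ Ico (m + y) (m + u)).card := hu2
          omega
        calc (1 : ℝ) = (1 / 4 : ℝ) ^ (u + 1) * 4 ^ (u + 1) := by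
              rw [← mul_pow]; norm_num
          _ ≤ _ := mul_le_mul_of_nonneg_left h3 (by positivity)
      exact h2.trans (single_le_sum
        (f := fun u => (1 / 4 : ℝ) ^ (u + 1) * ∏ j,
          (16 : ℝ) ^ (f j ∩ Ico (m + y) (m + u)).card) (fun u _ => by positivity) hu)
    have h2 : (Tb.card : ℝ) ≤ ∑ f ∈ TT, ∑ u ∈ U, (1 / 4 : ℝ) ^ (u + 1) * ∏ j,
        (16 : ℝ) ^ (f j ∩ Ico (m + y) (m + u)).card := by
      calc (Tb.card : ℝ) = ∑ _f ∈ Tb, (1 : ℝ) := by rw [sum_const, nsmul_eq_mul, mul_one]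
        _ ≤ ∑ f ∈ Tb, ∑ u ∈ U, (1 / 4 : ℝ) ^ (u + 1) * ∏ j,
            (16 : ℝ) ^ (f j ∩ Ico (m + y) (m + u)).card := sum_le_sum h1
        _ ≤ _ := sum_le_sum_of_subset_of_nonneg (filter_subset _ _)
            (fun f _ _ => sum_nonneg (fun u _ => by positivity))
    rw [sum_comm] at h2
    have h3 : ∀ u ∈ U, ∑ f ∈ TT, (1 / 4 : ℝ) ^ (u + 1) * ∏ j,
        (16 : ℝ) ^ (f j ∩ Ico (m + y) (m + u)).card ≤
        (TT.card : ℝ) * ((1 / 8) * (1 / 2) ^ (u - (y + 1))) := by
      intro u hu
      rw [hU, mem_Ico] at hu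
      rw [← mul_sum]
      have h4 : ∑ f ∈ TT, ∏ j, (16 : ℝ) ^ (f j ∩ Ico (m + y) (m + u)).card =
          ∏ _j : Fin k', ∑ C ∈ PY, (16 : ℝ) ^ (C ∩ Ico (m + y) (m + u)).card := by
        rw [hTT, prod_univ_sum]
      rw [h4, prod_const, card_univ, Fintype.card_fin]
      have h5 : ∑ C ∈ PY, (16 : ℝ) ^ (C ∩ Ico (m + y) (m + u)).card ≤
          (PY.card : ℝ) * (1 + 16 * Λ) ^ (u - y) := by
        have h6 := moment_fixed (z := 16) (p := m + y) (q := m + u) (n := n) hΛ0 (by norm_num) hf
          (by omega) (by omega)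
        have e1 : m + u - (m + y) = u - y := by omega
        rw [e1, ← hPYc] at h6
        exact h6
      have h7 : (∑ C ∈ PY, (16 : ℝ) ^ (C ∩ Ico (m + y) (m + u)).card) ^ k' ≤
          (TT.card : ℝ) * 2 ^ (u - y) := by
        calc (∑ C ∈ PY, (16 : ℝ) ^ (C ∩ Ico (m + y) (m + u)).card) ^ k'
            ≤ ((PY.card : ℝ) * (1 + 16 * Λ) ^ (u - y)) ^ k' :=
              pow_le_pow_left₀ (sum_nonneg (fun _ _ => by positivity)) h5 _
          _ = (TT.card : ℝ) * ((1 + 16 * Λ) ^ k') ^ (u - y) := by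
              rw [hTTc]
              push_cast
              rw [mul_pow, ← pow_mul, ← pow_mul, mul_comm (u - y) k']
          _ ≤ _ := by
              refine mul_le_mul_of_nonneg_left ?_ (by positivity)
              exact pow_le_pow_left₀ (by positivity) hnum _
      obtain ⟨v, rfl⟩ : ∃ v, u = y + 1 + v := ⟨u - (y + 1), by omega⟩
      have e2 : y + 1 + v - y = v + 1 := by omega
      have e3 : y + 1 + v - (y + 1) = v := by omega
      rw [e2] at h7
      rw [e3]
      calc (1 / 4 : ℝ) ^ (y + 1 + v + 1) *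
            (∑ C ∈ PY, (16 : ℝ) ^ (C ∩ Ico (m + y) (m + (y + 1 + v))).card) ^ k'
          ≤ (1 / 4 : ℝ) ^ (y + 1 + v + 1) * ((TT.card : ℝ) * 2 ^ (v + 1)) :=
            mul_le_mul_of_nonneg_left h7 (by positivity)
        _ ≤ (1 / 4 : ℝ) ^ (v + 2) * ((TT.card : ℝ) * 2 ^ (v + 1)) := by
            refine mul_le_mul_of_nonneg_right ?_ (by positivity)
            exact pow_le_pow_of_le_one (by norm_num) (by norm_num) (by omega)
        _ = (TT.card : ℝ) * ((1 / 8) * ((1 / 4) ^ v * 2 ^ v)) := by ring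
        _ = _ := by rw [← mul_pow]; norm_num
    have h4 : (Tb.card : ℝ) ≤ ∑ u ∈ U, (TT.card : ℝ) * ((1 / 8) * (1 / 2) ^ (u - (y + 1))) :=
      h2.trans (sum_le_sum h3)
    have h5 : ∑ u ∈ U, (1 / 2 : ℝ) ^ (u - (y + 1)) ≤ 2 := by
      rw [hU, sum_Ico_eq_sum_range]
      refine le_trans (le_of_eq ?_) (geom_half ((k' + 1) * i + 1 - (y + 1)))
      refine sum_congr rfl (fun v _ => ?_)
      congr 1
      omega
    rw [← mul_sum, ← mul_sum] at h4
    have h6 : (TT.card : ℝ) * (1 / 8 * ∑ u ∈ U, (1 / 2 : ℝ) ^ (u - (y + 1))) ≤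
        (TT.card : ℝ) * (1 / 8 * 2) := by gcongr
    linarith
  have hTbc' : 4 * Tb.card ≤ TT.card := by exact_mod_cast hTbc
  -- every other tuple contains a lossy set
  have hlossy : ∀ f ∈ TT \ Tb, ∃ j, f j ∈ Rc F n m i := by
    intro f hfm
    rw [mem_sdiff] at hfm
    obtain ⟨hfT, hfb⟩ := hfm
    rw [hTT, Fintype.mem_piFinset] at hfT
    by_contra hcon
    push Not at hcon
    have hfj : ∀ j, f j ⊆ Ico (m + y) n ∧ (f j).card = i := fun j => mem_powersetCard.mp (hfT j)
    have hsubm : Ico (m + y) n ⊆ Ico m n := Ico_subset_Ico_left (by omega)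
    obtain ⟨u, hu, hbal⟩ := no_bal (s := s) (i := i) hk' his hFK hFD hFS hCs3 f (by
      intro j
      have h1 := hcon j
      unfold Rc at h1
      rw [mem_filter, mem_powersetCard, not_and, not_le] at h1
      exact h1 ⟨(hfj j).1.trans hsubm, (hfj j).2⟩)
    rw [← hm] at hbal
    have hCsn : Cs ⊆ range n := by
      intro a ha
      have := mem_Ico.mp (hCs1 ha)
      exact mem_range.mpr this.2
    have hun : m + u ≤ n := by omega
    have e1 : Cs.card = (Cs ∩ Ico m (m + u)).card + suf (m + u) Cs := by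
      rw [suf_eq hCsn, ← card_inter_Ico_split (by omega) hun, inter_eq_left.mpr hCs1]
    have e2 : ∀ j, i = (f j ∩ Ico m (m + u)).card + suf (m + u) (f j) := by
      intro j
      have h1 : f j ⊆ range n := by
        intro a ha
        have := mem_Ico.mp ((hfj j).1 ha)
        exact mem_range.mpr this.2
      rw [suf_eq h1, ← card_inter_Ico_split (by omega) hun,
        inter_eq_left.mpr ((hfj j).1.trans hsubm)]
      exact (hfj j).2.symm
    have e3 : k' * i = ∑ j, (f j ∩ Ico m (m + u)).card + ∑ j, suf (m + u) (f j) := by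
      rw [← sum_add_distrib]
      have : ∑ _j : Fin k', i = k' * i := by
        rw [sum_const, card_univ, Fintype.card_fin, smul_eq_mul]
      rw [← this]
      exact sum_congr rfl (fun j _ => e2 j)
    have hki : (k' + 1) * i = k' * i + i := by ring
    by_cases huy : u ≤ y
    · have e4 : ∑ j, (f j ∩ Ico m (m + u)).card = 0 := by
        refine sum_eq_zero (fun j _ => ?_)
        rw [card_eq_zero, ← disjoint_iff_inter_eq_empty, disjoint_left]
        intro a ha ha2
        have h1 := mem_Ico.mp ((hfj j).1 ha)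
        have h2 := mem_Ico.mp ha2
        omega
      have e5 : (Cs ∩ Ico m (m + u)).card ≤ u := by
        refine (card_le_card inter_subset_right).trans ?_
        rw [Nat.card_Ico]
        omega
      omega
    · have e4 : ∑ j, (f j ∩ Ico m (m + u)).card = E f u := by
        simp only [hE]
        refine sum_congr rfl (fun j _ => ?_)
        congr 1
        ext a
        rw [mem_inter, mem_inter, mem_Ico, mem_Ico]
        constructor
        · rintro ⟨h1, h2, h3⟩
          have := mem_Ico.mp ((hfj j).1 h1)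
          exact ⟨h1, this.1, h3⟩
        · rintro ⟨h1, h2, h3⟩
          exact ⟨h1, by omega, h3⟩
      have h1 := hgood u (by omega) hu
      have h2 : ¬ (u < 2 * E f u) := by
        intro hcon2
        refine hfb (mem_filter.mpr ⟨?_, u, ?_, hcon2⟩)
        · rw [hTT, Fintype.mem_piFinset]; exact hfT
        · rw [hU, mem_Ico]; omega
      omega
  -- counting
  have hcount : (TT \ Tb).card ≤ k' * ((Rc F n m i).card * PY.card ^ (k' - 1)) := by
    have h1 : TT \ Tb ⊆ (univ : Finset (Fin k')).biUnion (fun j =>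
        Fintype.piFinset (fun q => if q = j then Rc F n m i else PY)) := by
      intro f hfm
      obtain ⟨j, hj⟩ := hlossy f hfm
      rw [mem_biUnion]
      refine ⟨j, mem_univ _, ?_⟩
      rw [Fintype.mem_piFinset]
      intro q
      split_ifs with h
      · rw [h]; exact hj
      · have := (mem_sdiff.mp hfm).1
        rw [hTT, Fintype.mem_piFinset] at this
        exact this q
    refine (card_le_card h1).trans (card_biUnion_le.trans ?_)
    have h2 : ∀ j ∈ (univ : Finset (Fin k')),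
        (Fintype.piFinset (fun q => if q = j then Rc F n m i else PY)).card =
          (Rc F n m i).card * PY.card ^ (k' - 1) := by
      intro j _
      rw [Fintype.card_piFinset, ← prod_one_coord j]
      refine prod_congr rfl (fun q _ => ?_)
      split_ifs <;> rfl
    rw [sum_congr rfl h2, sum_const, card_univ, Fintype.card_fin, smul_eq_mul]
  have hsd := card_sdiff_add_card_eq_card (filter_subset (fun f => ∃ u ∈ U, u < 2 * E f u) TT)
  rw [← hTb] at hsd
  have h3 : 3 * TT.card ≤ 4 * (TT \ Tb).card := by omega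
  have h4 : 3 * PY.card * PY.card ^ (k' - 1) ≤
      4 * (k' * (Rc F n m i).card) * PY.card ^ (k' - 1) := by
    calc 3 * PY.card * PY.card ^ (k' - 1) = 3 * TT.card := by
          rw [hTTc]
          have : k' = (k' - 1) + 1 := by omega
          conv_rhs => rw [this, pow_succ]
          ring
      _ ≤ 4 * (TT \ Tb).card := h3
      _ ≤ 4 * (k' * ((Rc F n m i).card * PY.card ^ (k' - 1))) := Nat.mul_le_mul_left _ hcount
      _ = _ := by ring
  exact Nat.le_of_mul_le_mul_right h4 (Nat.pow_pos hpos)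

end Pool.Agent.H69.EF
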