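import Mathlib
import Pool.Agent.H69.EF.Count

set_option autoImplicit false

open Finset

namespace Pool.Agent.H69.EF

open Pool.Agent.H93.EF

theorem weight_le {Λ : ℝ} (hΛ0 : 0 ≤ Λ) (h64 : 64 * Λ ≤ 1) {u y : ℕ} (h : y ≤ u) :
    (2 : ℝ) ^ u * Λ ^ (u / 2) ≤ 8 * (4 * Λ) ^ (y / 2) * (1 / 4) ^ (u - y) := by
  set δ := u / 2 - y / 2 with hδ
  have e1 : u / 2 = y / 2 + δ := by omega
  have h1 : (2 : ℝ) ^ u ≤ 2 * 4 ^ (u / 2) := by
    have : (4 : ℝ) = 2 ^ 2 := by norm_num
    rw [this, ← pow_mul, ← pow_succ']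
    exact pow_le_pow_right₀ (by norm_num) (by omega)
  have h2 : (4 * Λ) ^ δ ≤ 4 * (1 / 4) ^ (u - y) := by
    calc (4 * Λ) ^ δ ≤ (1 / 16) ^ δ := pow_le_pow_left₀ (by positivity) (by linarith) _
      _ = (1 / 4) ^ (2 * δ) := by rw [pow_mul]; norm_num
      _ = 4 * (1 / 4) ^ (2 * δ + 1) := by rw [pow_succ]; ring
      _ ≤ 4 * (1 / 4) ^ (u - y) := by
          refine mul_le_mul_of_nonneg_left ?_ (by norm_num)
          exact pow_le_pow_of_le_one (by norm_num) (by norm_num) (by omega)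
  calc (2 : ℝ) ^ u * Λ ^ (u / 2) ≤ (2 * 4 ^ (u / 2)) * Λ ^ (u / 2) :=
        mul_le_mul_of_nonneg_right h1 (by positivity)
    _ = 2 * ((4 * Λ) ^ (y / 2) * (4 * Λ) ^ δ) := by
        rw [← pow_add, ← e1, mul_pow]; ring
    _ ≤ 2 * ((4 * Λ) ^ (y / 2) * (4 * (1 / 4) ^ (u - y))) := by gcongr
    _ = _ := by ring

/-- If every heavy set has a bad place at or beyond `y` then there are few heavy sets. -/
theorem few_heavy {n m i y t L : ℕ} {Λ : ℝ} {F : Finset (Finset ℕ)} (hΛ0 : 0 ≤ Λ)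
    (h64 : 64 * Λ ≤ 1) (hf : Fast t i Λ) (hL : m + L + t ≤ n)
    (hbad : ∀ C ∈ PP F n m i, ∃ u, y ≤ u ∧ u ≤ L ∧
      2 * (C.card - i) + u ≤ 2 * (C ∩ Ico m (m + u)).card + 1) :
    ((PP F n m i).card : ℝ) ≤ 12 * (4 * Λ) ^ (y / 2) * (n - m).choose i := by
  classical
  have hΛ1 : Λ < 1 := by linarith
  set Q : ℕ → Finset (Finset ℕ) := fun u => (Ico m n).powerset.filter (fun C => i < C.card ∧
    2 * (C.card - i) + u ≤ 2 * (C ∩ Ico m (m + u)).card + 1) with hQ
  have hcov : PP F n m i ⊆ (Ico y (L + 1)).biUnion Q := by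
    intro C hC
    obtain ⟨u, h1, h2, h3⟩ := hbad C hC
    have hC' := mem_filter.mp hC
    rw [mem_biUnion]
    exact ⟨u, mem_Ico.mpr ⟨h1, by omega⟩, mem_filter.mpr ⟨hC'.1, hC'.2.1, h3⟩⟩
  have hQc : ∀ u ∈ Ico y (L + 1), ((Q u).card : ℝ) ≤
      (8 * (4 * Λ) ^ (y / 2) * (1 / (1 - Λ)) * (n - m).choose i) * (1 / 4) ^ (u - y) := by
    intro u hu
    rw [mem_Ico] at hu
    have h1 := sum_split_le' (S := Q u) (p := m) (q := m + u) (n := n)
      (fun C hC => (mem_filter.mp hC).1) (fun _ _ => (1 : ℝ)) (fun _ _ => zero_le_one)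
      (fun _ => (Ico (m + u) n).powerset.filter (fun C2 => u / 2 + C2.card ≤ i)) (by
        intro D hD
        obtain ⟨hD1, hD2, hD3⟩ := mem_filter.mp hD
        rw [mem_filter, mem_powerset]
        refine ⟨inter_subset_right, ?_⟩
        have h2 := card_inter_Ico_split (p := m) (q := m + u) (n := n) (by omega) (by omega) D
        rw [inter_eq_left.mpr (mem_powerset.mp hD1)] at h2
        omega)
    rw [sum_const, nsmul_eq_mul, mul_one] at h1
    have h2 : ∑ _C2 ∈ (Ico (m + u) n).powerset.filter (fun C2 => u / 2 + C2.card ≤ i), (1 : ℝ) ≤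
        Λ ^ (u / 2) / (1 - Λ) * (n - m).choose i := by
      have h3 := sum_powerset_card (S := Ico (m + u) n)
        (fun g => if u / 2 + g ≤ i then ((1 : ℝ) / 1) ^ g else 0)
      rw [Nat.card_Ico] at h3
      have h4 := inner_le (h := u / 2) (Y := 1) (M := n - (m + u)) hΛ0 one_pos (by linarith) hf
        (by omega)
      rw [← h3] at h4
      rw [sum_filter]
      have h5 : ∑ C2 ∈ (Ico (m + u) n).powerset, (if u / 2 + C2.card ≤ i then (1 : ℝ) else 0) =
          ∑ C ∈ (Ico (m + u) n).powerset,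
            (if u / 2 + C.card ≤ i then ((1 : ℝ) / 1) ^ C.card else 0) := by
        refine sum_congr rfl (fun C _ => ?_)
        split_ifs <;> simp
      rw [h5]
      refine h4.trans ?_
      have h6 : ((n - (m + u)).choose i : ℝ) ≤ (n - m).choose i := by
        exact_mod_cast Nat.choose_le_choose i (by omega)
      have h7 : 0 ≤ (Λ * 1) ^ (u / 2) / (1 - Λ * 1) := by
        have : 0 < 1 - Λ * 1 := by linarith
        positivity
      calc (Λ * 1) ^ (u / 2) / (1 - Λ * 1) * ((n - (m + u)).choose i * (1 / 1) ^ i)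
          ≤ (Λ * 1) ^ (u / 2) / (1 - Λ * 1) * ((n - m).choose i * (1 / 1) ^ i) := by gcongr
        _ = _ := by rw [mul_one, div_one, one_pow, mul_one]
    rw [sum_const, nsmul_eq_mul, card_powerset, Nat.card_Ico] at h1
    have e1 : m + u - m = u := by omega
    rw [e1] at h1
    push_cast at h1
    have h3 := weight_le hΛ0 h64 hu.1
    have hden : 0 < 1 - Λ := by linarith
    calc ((Q u).card : ℝ) ≤ 2 ^ u * ∑ _C2 ∈ (Ico (m + u) n).powerset.filter
          (fun C2 => u / 2 + C2.card ≤ i), (1 : ℝ) := h1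
      _ ≤ 2 ^ u * (Λ ^ (u / 2) / (1 - Λ) * (n - m).choose i) :=
          mul_le_mul_of_nonneg_left h2 (by positivity)
      _ = (2 ^ u * Λ ^ (u / 2)) * (1 / (1 - Λ) * (n - m).choose i) := by ring
      _ ≤ (8 * (4 * Λ) ^ (y / 2) * (1 / 4) ^ (u - y)) * (1 / (1 - Λ) * (n - m).choose i) :=
          mul_le_mul_of_nonneg_right h3 (by positivity)
      _ = _ := by ring
  have h1 : ((PP F n m i).card : ℝ) ≤ ∑ u ∈ Ico y (L + 1), ((Q u).card : ℝ) := by
    exact_mod_cast (card_le_card hcov).trans card_biUnion_le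
  have h2 := h1.trans (sum_le_sum hQc)
  rw [← mul_sum] at h2
  have h3 : ∑ u ∈ Ico y (L + 1), (1 / 4 : ℝ) ^ (u - y) ≤ 4 / 3 := by
    rw [sum_Ico_eq_sum_range]
    have h4 := geom_sum_Ico_le_of_lt_one (x := (1 / 4 : ℝ)) (m := 0) (n := L + 1 - y)
      (by norm_num) (by norm_num)
    rw [← range_eq_Ico] at h4
    norm_num at h4
    refine le_trans (le_of_eq ?_) h4
    refine sum_congr rfl (fun v _ => ?_)
    have : y + v - y = v := by omega
    rw [this]
  have hden : 1 / (1 - Λ) ≤ 9 / 8 := by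
    rw [div_le_div_iff₀ (by linarith) (by norm_num)]
    linarith
  have h0 : 0 ≤ (4 * Λ) ^ (y / 2) := by positivity
  have hden0 : 0 ≤ 1 / (1 - Λ) := by
    have : 0 < 1 - Λ := by linarith
    positivity
  calc ((PP F n m i).card : ℝ)
      ≤ (8 * (4 * Λ) ^ (y / 2) * (1 / (1 - Λ)) * (n - m).choose i) *
          ∑ u ∈ Ico y (L + 1), (1 / 4 : ℝ) ^ (u - y) := h2
    _ ≤ (8 * (4 * Λ) ^ (y / 2) * (9 / 8) * (n - m).choose i) * (4 / 3) := by gcongr
    _ = _ := by ring

theorem choose_drop {t i : ℕ} {Λ : ℝ} (hΛ0 : 0 ≤ Λ) (hΛ1 : Λ ≤ 1) (hf : Fast t i Λ) :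
    ∀ y M, t ≤ M → (1 - Λ) ^ y * ((M + y).choose i : ℝ) ≤ M.choose i := by
  have h1 : ∀ M, t ≤ M → (1 - Λ) * ((M + 1).choose i : ℝ) ≤ M.choose i := by
    intro M hM
    rcases Nat.eq_zero_or_pos i with h | h
    · subst h
      simp only [Nat.choose_zero_right, Nat.cast_one, mul_one]
      linarith
    · obtain ⟨i', rfl⟩ : ∃ i', i = i' + 1 := ⟨i - 1, by omega⟩
      have h2 := hf M hM i' (by omega)
      rw [Nat.choose_succ_succ']
      push_cast
      have h3 : (0 : ℝ) ≤ (M.choose (i' + 1) : ℝ) := Nat.cast_nonneg _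
      have h4 : (0 : ℝ) ≤ (M.choose i' : ℝ) := Nat.cast_nonneg _
      nlinarith [mul_nonneg hΛ0 h4, mul_nonneg hΛ0 h3]
  intro y
  induction y with
  | zero => intro M _; simp
  | succ y ih =>
    intro M hM
    have h2 := ih (M + 1) (by omega)
    have h3 := h1 M hM
    have e1 : M + (y + 1) = M + 1 + y := by omega
    rw [e1]
    calc (1 - Λ) ^ (y + 1) * ((M + 1 + y).choose i : ℝ)
        = (1 - Λ) * ((1 - Λ) ^ y * ((M + 1 + y).choose i : ℝ)) := by ring
      _ ≤ (1 - Λ) * ((M + 1).choose i : ℝ) := mul_le_mul_of_nonneg_left h2 (by linarith)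
      _ ≤ _ := h3

/-- **Exact step**: near a level family the heavy sets are outnumbered by the lossy ones. -/
theorem exact_level {k' s i n t : ℕ} {Λ : ℝ} {F : Finset (Finset ℕ)} (hk' : 2 ≤ k')
    (his : i ≤ s) (hn : n = (k' + 1) * s + t) (hFK : KU (k' + 1) ((k' + 1) * s) F)
    (hFD : Down F) (hFS : Shifted F) (hΛ0 : 0 ≤ Λ) (hf : Fast t i Λ)
    (hnum : (1 + 16 * Λ) ^ k' ≤ 2) (hnum2 : 256 * k' * Λ ≤ 1)
    (hsmall : 2 * (k' * (Rc F n ((k' + 1) * (s - i)) i).card) ≤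
      (n - (k' + 1) * (s - i)).choose i) :
    2 * (PP F n ((k' + 1) * (s - i)) i).card ≤ (Rc F n ((k' + 1) * (s - i)) i).card := by
  classical
  set m := (k' + 1) * (s - i) with hm
  have hks : (k' + 1) * s = m + (k' + 1) * i := by
    rw [hm, ← mul_add]; congr 1; omega
  rcases (PP F n m i).eq_empty_or_nonempty with hP | hP
  · rw [hP, card_empty]; omega
  have hk2 : (2 : ℝ) ≤ k' := by exact_mod_cast hk'
  have h64 : 64 * Λ ≤ 1 := by nlinarith
  have hΛ1 : Λ ≤ 1 := by linarith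
  set L := (k' + 1) * i with hL
  set bad : Finset ℕ → ℕ → Prop :=
    fun C u => 2 * (C.card - i) + u ≤ 2 * (C ∩ Ico m (m + u)).card + 1 with hbad
  set yb : Finset ℕ → ℕ := fun C => ((range (L + 1)).filter (fun u => bad C u)).sup id with hyb
  obtain ⟨C0, hC0, hC0min⟩ := exists_min_image (PP F n m i) yb hP
  set y := yb C0 with hy
  have hgood : ∀ u, y < u → u ≤ L → 2 * (C0 ∩ Ico m (m + u)).card + 1 < 2 * (C0.card - i) + u := by
    intro u hu huL
    by_contra hcon
    push Not at hcon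
    have h1 : u ≤ y := by
      rw [hy, hyb]
      exact le_sup (f := id) (mem_filter.mpr ⟨mem_range.mpr (by omega), hcon⟩)
    omega
  have hyL : y ≤ L := by
    rw [hy, hyb]
    refine Finset.sup_le (fun u hu => ?_)
    have := mem_range.mp (mem_filter.mp hu).1
    simp only [id]
    omega
  have hlossy := many_lossy (y := y) hk' his hn hFK hFD hFS hΛ0 hf hnum hC0 hgood
  rw [← hm] at hlossy
  set N := n - m with hN
  have hNt : L + t = N := by omega
  have hdrop := choose_drop hΛ0 hΛ1 hf y (n - (m + y)) (by omega)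
  have e1 : n - (m + y) + y = N := by omega
  rw [e1] at hdrop
  have hlossy' : 3 * ((n - (m + y)).choose i : ℝ) ≤ 4 * (k' * (Rc F n m i).card) := by
    exact_mod_cast hlossy
  have hsmall' : 2 * ((k' : ℝ) * (Rc F n m i).card) ≤ (N.choose i : ℝ) := by
    exact_mod_cast hsmall
  have hNpos : (0 : ℝ) < N.choose i := by
    have : 0 < N.choose i := by
      refine Nat.choose_pos ?_
      have : i ≤ L := Nat.le_mul_of_pos_left _ (by omega)
      omega
    exact_mod_cast this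
  have hy2 : 2 ≤ y := by
    by_contra hcon
    have h1 : (1 - Λ) ^ 1 ≤ (1 - Λ) ^ y :=
      pow_le_pow_of_le_one (by linarith) (by linarith) (by omega)
    rw [pow_one] at h1
    have h2 : (1 - Λ) * (N.choose i : ℝ) ≤ (n - (m + y)).choose i :=
      (mul_le_mul_of_nonneg_right h1 hNpos.le).trans hdrop
    nlinarith
  have hheavy := few_heavy (F := F) (m := m) (i := i) (y := y) (L := L) (n := n) hΛ0 h64 hf
    (by omega) (by
      intro C hC
      have h1 := hC0min C hC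
      have hne : ((range (L + 1)).filter (fun u => bad C u)).Nonempty := by
        by_contra hcon
        rw [not_nonempty_iff_eq_empty] at hcon
        have : yb C = 0 := by rw [hyb]; simp only [hcon, sup_empty]; rfl
        omega
      obtain ⟨u, hu, hu2⟩ := exists_mem_eq_sup _ hne id
      have hu' := mem_filter.mp hu
      refine ⟨u, ?_, ?_, hu'.2⟩
      · have : yb C = u := hu2
        omega
      · have := mem_range.mp hu'.1
        omega)
  -- numerical comparison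
  set r := y / 2 with hr
  have hr1 : 1 ≤ r := by omega
  have hpow : (1 / 2 : ℝ) ^ r ≤ (1 - Λ) ^ y := by
    calc (1 / 2 : ℝ) ^ r ≤ ((1 - Λ) ^ 3) ^ r := by
          refine pow_le_pow_left₀ (by norm_num) ?_ _
          nlinarith [mul_nonneg hΛ0 hΛ0, mul_nonneg (mul_nonneg hΛ0 hΛ0) hΛ0]
      _ = (1 - Λ) ^ (3 * r) := by rw [← pow_mul]
      _ ≤ _ := pow_le_pow_of_le_one (by linarith) (by linarith) (by omega)
  have h8 : (8 * Λ) ^ r ≤ 8 * Λ := by
    calc (8 * Λ) ^ r ≤ (8 * Λ) ^ 1 :=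
          pow_le_pow_of_le_one (by positivity) (by linarith) hr1
      _ = _ := pow_one _
  have hk0 : (0 : ℝ) < k' := by linarith
  have h9 : 32 * (k' : ℝ) * (8 * Λ) ^ r ≤ 1 := by nlinarith
  have h10 : 32 * (k' : ℝ) * (4 * Λ) ^ r ≤ (1 / 2) ^ r := by
    have e2 : (4 * Λ) ^ r = (8 * Λ) ^ r * (1 / 2) ^ r := by
      rw [← mul_pow]; congr 1; ring
    rw [e2]
    have : (0 : ℝ) ≤ (1 / 2) ^ r := by positivity
    calc 32 * (k' : ℝ) * ((8 * Λ) ^ r * (1 / 2) ^ r)
        = (32 * (k' : ℝ) * (8 * Λ) ^ r) * (1 / 2) ^ r := by ring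
      _ ≤ 1 * (1 / 2) ^ r := mul_le_mul_of_nonneg_right h9 this
      _ = _ := one_mul _
  have h11 : (k' : ℝ) * (2 * (PP F n m i).card) ≤ k' * (Rc F n m i).card := by
    have h12 : (k' : ℝ) * (2 * (PP F n m i).card) ≤
        k' * (2 * (12 * (4 * Λ) ^ r * N.choose i)) := by gcongr
    have h13 : 32 * (k' : ℝ) * (4 * Λ) ^ r * N.choose i ≤ (1 - Λ) ^ y * N.choose i :=
      mul_le_mul_of_nonneg_right (h10.trans hpow) hNpos.le
    nlinarith
  have h14 : (2 * (PP F n m i).card : ℝ) ≤ (Rc F n m i).card := le_of_mul_le_mul_left h11 hk0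
  exact_mod_cast h14

end Pool.Agent.H69.EF
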