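import Mathlib
import Pool.Agent.H69.EF.Level
import Pool.Agent.H93.EF.Exp6

set_option autoImplicit false

open Finset

namespace Pool.Agent.H69.EF

open Pool.Agent.H93.EF

/-- In at least one of two levels the density is small. -/
theorem two_level_min {n s t i l a b : ℕ} {Λ Y η : ℝ} {F : Finset (Finset ℕ)}
    (hn : n = (a + b) * s + t) (ha : 1 ≤ a) (his : i + l ≤ s)
    (hFn : F ⊆ (range n).powerset) (hFK : KU (a + b) ((a + b) * s) F) (hFD : Down F)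
    (hFS : Shifted F) (hΛ0 : 0 ≤ Λ) (hY : 1 ≤ Y) (hΛY : Λ * Y < 1) (hf : Fast t (i + l) Λ)
    (hq1 : (1 + Λ * Y) ^ (a + b) ≤ Y / 2) (hq2 : Y * ((1 + 1 / Y) / 2) ^ a ≤ 1 / 2)
    (hη : 0 < η) (hl : 1 ≤ l)
    (hkey : 4 * ((1 / (1 - Λ * Y)) ^ (a + b) * (1 + Λ * Y) ^ (b * (a + b))) <
      η ^ (a + b) * Y ^ b) :
    (((F.filter (fun D => (D ∩ Ico ((a + b) * (s - i)) n).card ≤ i)).card : ℝ)) ≤
      η ^ l * (2 ^ ((a + b) * (s - i)) * ((n - (a + b) * (s - i)).choose i : ℝ)) ∨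
    (((F.filter (fun D => (D ∩ Ico ((a + b) * (s - (i + l))) n).card ≤ i + l)).card : ℝ)) ≤
      η ^ l * (2 ^ ((a + b) * (s - (i + l))) *
        ((n - (a + b) * (s - (i + l))).choose (i + l) : ℝ)) := by
  by_contra hcon
  push Not at hcon
  obtain ⟨h1, h2⟩ := hcon
  have hY0 : 0 < Y := by linarith
  have hΛY0 : 0 ≤ Λ * Y := mul_nonneg hΛ0 hY0.le
  have hden : 0 < 1 - Λ * Y := by linarith
  have hmain := two_level hn his hFn hFK hFD hFS hΛ0 hY hΛY hf hq1 hq2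
  set k := a + b with hk
  set Ai : ℝ := 2 ^ (k * (s - i)) * ((n - k * (s - i)).choose i : ℝ) with hAi
  set Aj : ℝ := 2 ^ (k * (s - (i + l))) * ((n - k * (s - (i + l))).choose (i + l) : ℝ) with hAj
  have hpos : ∀ i ≤ s, 0 < (n - k * (s - i)).choose i := by
    intro i hi
    refine Nat.choose_pos ?_
    have h3 : k * (s - i) + k * i = k * s := by rw [← mul_add, Nat.sub_add_cancel hi]
    have h4 : i ≤ k * i := Nat.le_mul_of_pos_left _ (by omega)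
    omega
  have hAi0 : 0 < Ai := by
    have : (0 : ℝ) < ((n - k * (s - i)).choose i : ℝ) := by exact_mod_cast hpos i (by omega)
    positivity
  have hAj0 : 0 < Aj := by
    have : (0 : ℝ) < ((n - k * (s - (i + l))).choose (i + l) : ℝ) := by
      exact_mod_cast hpos (i + l) his
    positivity
  set K0 : ℝ := 1 / (1 - Λ * Y) with hK0
  have hK1 : 1 ≤ K0 := by
    rw [hK0, le_div_iff₀ hden]
    linarith
  set α := 1 + Λ * Y with hα
  have hα1 : 1 ≤ α := by rw [hα]; linarith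
  have h3 : (η ^ l * Ai) ^ a * (η ^ l * Aj) ^ b ≤ Ai ^ a * Aj ^ b *
      (K0 ^ k * ((1 / Y) ^ (b * l) * α ^ (b * (k * l))) * 4) := by
    refine le_trans ?_ hmain
    have e1 : (0 : ℝ) ≤ η ^ l * Ai := by positivity
    have e2 : (0 : ℝ) ≤ η ^ l * Aj := by positivity
    exact mul_le_mul (pow_le_pow_left₀ e1 h1.le _) (pow_le_pow_left₀ e2 h2.le _) (by positivity)
      (by positivity)
  have h4 : (Ai ^ a * Aj ^ b) * (η ^ k) ^ l ≤ (Ai ^ a * Aj ^ b) *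
      (K0 ^ k * ((1 / Y) ^ (b * l) * α ^ (b * (k * l))) * 4) := by
    refine le_trans (le_of_eq ?_) h3
    have e1 : (η ^ k) ^ l = (η ^ l) ^ a * (η ^ l) ^ b := by
      rw [← pow_add, ← pow_mul, ← pow_mul, mul_comm k l]
    rw [e1, mul_pow (η ^ l) Ai a, mul_pow (η ^ l) Aj b]
    ring
  have h5 := le_of_mul_le_mul_left h4 (by positivity)
  have h6 : (η ^ k * Y ^ b) ^ l ≤ (4 * (K0 ^ k * α ^ (b * k))) ^ l := by
    have e1 : (1 / Y) ^ (b * l) * (Y ^ b) ^ l = 1 := by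
      rw [← pow_mul, ← mul_pow, one_div_mul_cancel hY0.ne', one_pow]
    calc (η ^ k * Y ^ b) ^ l = (η ^ k) ^ l * (Y ^ b) ^ l := by rw [mul_pow]
      _ ≤ (K0 ^ k * ((1 / Y) ^ (b * l) * α ^ (b * (k * l))) * 4) * (Y ^ b) ^ l :=
          mul_le_mul_of_nonneg_right h5 (by positivity)
      _ = (4 * K0 ^ k) * α ^ (b * (k * l)) * ((1 / Y) ^ (b * l) * (Y ^ b) ^ l) := by ring
      _ = (4 * K0 ^ k) * (α ^ (b * k)) ^ l := by rw [e1, mul_one, ← pow_mul, mul_assoc b k l]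
      _ ≤ (4 * K0 ^ k) ^ l * (α ^ (b * k)) ^ l := by
          refine mul_le_mul_of_nonneg_right ?_ (by positivity)
          have : 1 ≤ 4 * K0 ^ k := by
            have := one_le_pow₀ hK1 (n := k)
            linarith
          calc 4 * K0 ^ k = (4 * K0 ^ k) ^ 1 := (pow_one _).symm
            _ ≤ _ := pow_le_pow_right₀ this hl
      _ = _ := by rw [← mul_pow, mul_assoc]
  have h7 : (4 * (K0 ^ k * α ^ (b * k))) ^ l < (η ^ k * Y ^ b) ^ l :=
    pow_lt_pow_left₀ hkey (by positivity) (by omega)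
  linarith

theorem pow_le_two {x : ℝ} {m : ℕ} (hx : 0 ≤ x) (h : (m : ℝ) * x ≤ 1 / 2) : (1 + x) ^ m ≤ 2 := by
  have h1 : (1 + x) ^ m ≤ Real.exp (m * x) := by
    have h2 : 1 + x ≤ Real.exp x := by
      have := Real.add_one_le_exp x
      linarith
    calc (1 + x) ^ m ≤ (Real.exp x) ^ m := pow_le_pow_left₀ (by linarith) h2 _
      _ = _ := by rw [← Real.exp_nat_mul]
  have h3 : Real.exp (m * x) ≤ Real.exp (1 / 2) := Real.exp_le_exp.mpr h
  have h4 : Real.exp (1 / 2) ≤ 2 := by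
    have h5 : Real.exp (1 / 2) * Real.exp (1 / 2) = Real.exp 1 := by
      rw [← Real.exp_add]; norm_num
    have h6 := Real.exp_one_lt_d9
    nlinarith [Real.exp_pos (1 / 2)]
  linarith

theorem inv_pow_le_two {x : ℝ} {m : ℕ} (hx1 : x < 1) (h : (m : ℝ) * x ≤ 1 / 2) :
    (1 / (1 - x)) ^ m ≤ 2 := by
  have h1 := one_add_mul_le_pow (a := -x) (by linarith) m
  have h2 : 1 / 2 ≤ (1 - x) ^ m := by
    have e1 : 1 + -x = 1 - x := by ring
    rw [e1] at h1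
    linarith
  rw [one_div, inv_pow, inv_le_comm₀ (by positivity) (by norm_num)]
  linarith

theorem fast_of {t i k : ℕ} (h : i * 2 ^ k ≤ 4 * (t - i)) : Fast t i (4 / 2 ^ k) := by
  intro M hM g hg
  have h1 := Nat.choose_succ_right_eq M g
  have h2 : (g + 1) * 2 ^ k ≤ 4 * (M - g) := by
    calc (g + 1) * 2 ^ k ≤ i * 2 ^ k := Nat.mul_le_mul_right _ hg
      _ ≤ 4 * (t - i) := h
      _ ≤ 4 * (M - g) := by omega
  have h3 : (((M.choose (g + 1) * (g + 1) : ℕ)) : ℝ) = ((M.choose g * (M - g) : ℕ) : ℝ) := by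
    rw [h1]
  push_cast at h3
  have h4 : ((g : ℝ) + 1) * 2 ^ k ≤ 4 * ((M - g : ℕ) : ℝ) := by exact_mod_cast h2
  have h5 : (0 : ℝ) ≤ (M.choose (g + 1) : ℝ) := Nat.cast_nonneg _
  have h6 : (0 : ℝ) ≤ (M.choose g : ℝ) := Nat.cast_nonneg _
  have h2k : (0 : ℝ) < 2 ^ k := by positivity
  rw [div_mul_eq_mul_div, le_div_iff₀ h2k]
  have h7 : ((M.choose g : ℝ) * 2 ^ k) * ((g : ℝ) + 1) ≤ (4 * M.choose (g + 1)) * ((g : ℝ) + 1) := by
    calc ((M.choose g : ℝ) * 2 ^ k) * ((g : ℝ) + 1) = M.choose g * (((g : ℝ) + 1) * 2 ^ k) := by ring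
      _ ≤ M.choose g * (4 * ((M - g : ℕ) : ℝ)) := mul_le_mul_of_nonneg_left h4 h6
      _ = 4 * ((M.choose (g + 1) : ℝ) * (g + 1)) := by rw [h3]; ring
      _ = _ := by ring
  have h8 : (0 : ℝ) < (g : ℝ) + 1 := by positivity
  exact le_of_mul_le_mul_right h7 h8

/-- the integer inequality behind the two-level lemma -/
theorem key_nat {k : ℕ} (hk : 60 ≤ k) : 16 * (32 * k) ^ k < 2 ^ ((k / 2 - 2) * (k - k / 2)) := by
  have h0 : (k : ℝ) ^ 4 * 2 ^ 36 ≤ 2 ^ k := k4_small k hk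
  have h1 : k ^ 4 * 2 ^ 36 ≤ 2 ^ k := by exact_mod_cast h0
  have h2 : (64 * k) ^ 4 * 2 ^ 5 ≤ 2 ^ k := by
    calc (64 * k) ^ 4 * 2 ^ 5 = k ^ 4 * 2 ^ 29 := by ring
      _ ≤ k ^ 4 * 2 ^ 36 := Nat.mul_le_mul_left _ (Nat.pow_le_pow_right (by norm_num) (by norm_num))
      _ ≤ 2 ^ k := h1
  have h3 : ((64 * k) ^ k) ^ 4 * 2 ^ (5 * k) ≤ (2 ^ ((k / 2 - 2) * (k - k / 2))) ^ 4 * 2 ^ (5 * k) := by
    calc ((64 * k) ^ k) ^ 4 * 2 ^ (5 * k) = ((64 * k) ^ 4 * 2 ^ 5) ^ k := by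
          rw [mul_pow ((64 * k) ^ 4), ← pow_mul, ← pow_mul, ← pow_mul, mul_comm k 4]
      _ ≤ (2 ^ k) ^ k := Nat.pow_le_pow_left h2 _
      _ = 2 ^ (k * k) := by rw [← pow_mul]
      _ ≤ 2 ^ (((k / 2 - 2) * (k - k / 2)) * 4 + 5 * k) := by
          refine Nat.pow_le_pow_right (by norm_num) ?_
          obtain ⟨c, hc | hc⟩ : ∃ c, k = 2 * c ∨ k = 2 * c + 1 := ⟨k / 2, by omega⟩
          · have e1 : k / 2 = c := by omega
            have e2 : k - k / 2 = c := by omega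
            rw [e2, e1, hc]
            obtain ⟨e, rfl⟩ : ∃ e, c = e + 2 := ⟨c - 2, by omega⟩
            rw [Nat.add_sub_cancel]
            nlinarith
          · have e1 : k / 2 = c := by omega
            have e2 : k - k / 2 = c + 1 := by omega
            rw [e2, e1, hc]
            obtain ⟨e, rfl⟩ : ∃ e, c = e + 2 := ⟨c - 2, by omega⟩
            rw [Nat.add_sub_cancel]
            nlinarith
      _ = _ := by rw [pow_add, ← pow_mul]
  have h4 : ((64 * k) ^ k) ^ 4 ≤ (2 ^ ((k / 2 - 2) * (k - k / 2))) ^ 4 :=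
    Nat.le_of_mul_le_mul_right h3 (Nat.two_pow_pos _)
  have h5 : (64 * k) ^ k ≤ 2 ^ ((k / 2 - 2) * (k - k / 2)) :=
    (Nat.pow_le_pow_iff_left (by norm_num)).mp h4
  refine lt_of_lt_of_le ?_ h5
  have e1 : (64 * k) ^ k = 2 ^ k * (32 * k) ^ k := by rw [← mul_pow]; ring_nf
  rw [e1]
  have h6 : 16 < 2 ^ k := by
    calc 16 < 2 ^ 60 := by norm_num
      _ ≤ 2 ^ k := Nat.pow_le_pow_right (by norm_num) hk
  exact Nat.mul_lt_mul_of_pos_right h6 (Nat.pow_pos (by omega))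

end Pool.Agent.H69.EF
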