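import Mathlib
import Pool.Agent.H69.EF.Main

set_option autoImplicit false

open Finset

namespace Pool.Agent.H69.EF

open Pool.Agent.H93.EF

theorem tail_big {t k s w : ℕ} {A : ℝ} (hk : 60 ≤ k) (hw2 : t < 2 ^ k * (w + 1))
    (hwk : 2 * k ≤ w) (hA : ∀ i ≤ s, (aa t k s i : ℝ) ≤ A) :
    ∑ i ∈ Ico (3 * w + 8) (s + 1), (aa t k s i : ℝ) ≤ A * (3 / 2 ^ k) := by
  set a : ℕ → ℝ := fun i => (aa t k s i : ℝ) with ha
  have ha0 : ∀ i, 0 ≤ a i := fun i => Nat.cast_nonneg _
  have hA0 : 0 ≤ A := (ha0 0).trans (hA 0 (Nat.zero_le _))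
  have hk' : (60 : ℝ) ≤ k := by exact_mod_cast hk
  have hw2' : (t : ℝ) < 2 ^ k * (w + 1) := by exact_mod_cast hw2
  have h2k : (0 : ℝ) < 2 ^ k := by positivity
  have hksm := k_small hk
  have hratio : ∀ i, 2 * w + 2 ≤ i → i < s → a (i + 1) ≤ 501 / 1000 * a i := by
    intro i hi his
    have h3 : ((i : ℝ) + 1) * 2 ^ k * a (i + 1) ≤
        ((t : ℝ) + 10 * k * ((i : ℝ) + 1)) * a i := aa_upper hk his
    have hi' : 2 * (w : ℝ) + 2 ≤ i := by exact_mod_cast hi
    have hQpos : (0 : ℝ) < (i : ℝ) + 1 := by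
      have : (0 : ℝ) ≤ (i : ℝ) := Nat.cast_nonneg _
      linarith
    have h4 : 2 * (t : ℝ) ≤ ((i : ℝ) + 1) * 2 ^ k := by nlinarith
    have h5 : 10 * (k : ℝ) * ((i : ℝ) + 1) ≤ (1 / 1000) * (((i : ℝ) + 1) * 2 ^ k) := by
      have h6 : 10 * (k : ℝ) ≤ (1 / 1000) * 2 ^ k := by
        have : (k : ℝ) * 2 ^ 50 ≤ 2 ^ k := hksm
        norm_num at this
        linarith
      nlinarith
    have h8 : (((i : ℝ) + 1) * 2 ^ k) * a (i + 1) ≤
        (((i : ℝ) + 1) * 2 ^ k) * (501 / 1000 * a i) := by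
      calc (((i : ℝ) + 1) * 2 ^ k) * a (i + 1) ≤ _ := h3
        _ ≤ ((((i : ℝ) + 1) * 2 ^ k) * (501 / 1000)) * a i := by
            refine mul_le_mul_of_nonneg_right ?_ (ha0 _)
            linarith
        _ = _ := by ring
    exact le_of_mul_le_mul_left h8 (by positivity)
  rw [sum_Ico_eq_sum_range]
  rcases Nat.eq_zero_or_pos (s + 1 - (3 * w + 8)) with h0 | h0
  · rw [h0]; simp only [range_zero, sum_empty]; positivity
  have h2 := sum_geom_up (a := a) (ρ := 501 / 1000) ha0 (by norm_num) (by norm_num) (3 * w + 8)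
    (s + 1 - (3 * w + 8)) (fun i hi => hratio _ (by omega) (by omega))
  have h3 : ∀ q, 2 * w + 2 + q ≤ s → a (2 * w + 2 + q) ≤ (501 / 1000) ^ q * A := by
    intro q
    induction q with
    | zero => intro hq; rw [pow_zero, one_mul]; exact hA _ hq
    | succ q ih =>
      intro hq
      have h4 := ih (by omega)
      have h5 := hratio (2 * w + 2 + q) (by omega) (by omega)
      calc a (2 * w + 2 + (q + 1)) ≤ 501 / 1000 * a (2 * w + 2 + q) := h5
        _ ≤ 501 / 1000 * ((501 / 1000) ^ q * A) := mul_le_mul_of_nonneg_left h4 (by norm_num)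
        _ = _ := by ring
  have h4 : a (3 * w + 8) ≤ (1 / 2) ^ k * A := by
    have h5 := h3 (w + 6) (by omega)
    have e1 : 2 * w + 2 + (w + 6) = 3 * w + 8 := by ring
    rw [e1] at h5
    refine h5.trans (mul_le_mul_of_nonneg_right ?_ hA0)
    calc (501 / 1000 : ℝ) ^ (w + 6) ≤ (501 / 1000) ^ (2 * k) :=
          pow_le_pow_of_le_one (by norm_num) (by norm_num) (by omega)
      _ = ((501 / 1000) ^ 2) ^ k := by rw [← pow_mul]
      _ ≤ (1 / 2) ^ k := pow_le_pow_left₀ (by norm_num) (by norm_num) _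
  calc ∑ i ∈ range (s + 1 - (3 * w + 8)), a (3 * w + 8 + i)
      ≤ a (3 * w + 8) * (1 / (1 - 501 / 1000)) := h2
    _ ≤ ((1 / 2) ^ k * A) * 3 := by
        refine mul_le_mul h4 (by norm_num) (by norm_num) (by positivity)
    _ = _ := by rw [one_div, inv_pow]; ring

theorem exact_k {k s i n t : ℕ} {Λ : ℝ} {F : Finset (Finset ℕ)} (hk : 3 ≤ k)
    (his : i ≤ s) (hn : n = k * s + t) (hFK : KU k (k * s) F)
    (hFD : Down F) (hFS : Shifted F) (hΛ0 : 0 ≤ Λ) (hf : Fast t i Λ)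
    (hnum : (1 + 16 * Λ) ^ k ≤ 2) (hnum2 : 256 * k * Λ ≤ 1)
    (hsmall : 2 * ((k - 1) * (Rc F n (k * (s - i)) i).card) ≤ (n - k * (s - i)).choose i) :
    2 * (PP F n (k * (s - i)) i).card ≤ (Rc F n (k * (s - i)) i).card := by
  obtain ⟨k', rfl⟩ : ∃ k', k = k' + 1 := ⟨k - 1, by omega⟩
  rw [Nat.add_sub_cancel] at hsmall
  refine exact_level (by omega) his hn hFK hFD hFS hΛ0 hf ?_ ?_ hsmall
  · refine le_trans ?_ hnum
    exact pow_le_pow_right₀ (by linarith) (by omega)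
  · refine le_trans ?_ hnum2
    push_cast
    nlinarith

theorem two_k {k n s t i l a b : ℕ} {Λ Y η : ℝ} {F : Finset (Finset ℕ)} (hab : a + b = k)
    (hn : n = k * s + t) (ha : 1 ≤ a) (his : i + l ≤ s)
    (hFn : F ⊆ (range n).powerset) (hFK : KU k (k * s) F) (hFD : Down F)
    (hFS : Shifted F) (hΛ0 : 0 ≤ Λ) (hY : 1 ≤ Y) (hΛY : Λ * Y < 1) (hf : Fast t (i + l) Λ)
    (hq1 : (1 + Λ * Y) ^ k ≤ Y / 2) (hq2 : Y * ((1 + 1 / Y) / 2) ^ a ≤ 1 / 2)
    (hη : 0 < η) (hl : 1 ≤ l)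
    (hkey : 4 * ((1 / (1 - Λ * Y)) ^ k * (1 + Λ * Y) ^ (b * k)) < η ^ k * Y ^ b) :
    (((F.filter (fun D => (D ∩ Ico (k * (s - i)) n).card ≤ i)).card : ℝ)) ≤
      η ^ l * (2 ^ (k * (s - i)) * ((n - k * (s - i)).choose i : ℝ)) ∨
    (((F.filter (fun D => (D ∩ Ico (k * (s - (i + l))) n).card ≤ i + l)).card : ℝ)) ≤
      η ^ l * (2 ^ (k * (s - (i + l))) * ((n - k * (s - (i + l))).choose (i + l) : ℝ)) := by
  subst hab
  exact two_level_min hn ha his hFn hFK hFD hFS hΛ0 hY hΛY hf hq1 hq2 hη hl hkey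

/-- sum of `η^|j-i|` over `j ≠ i` -/
theorem sum_eta {η : ℝ} (hη0 : 0 ≤ η) (hη1 : η ≤ 1 / 2) {i M : ℕ} (hi : i < M) :
    ∑ j ∈ (range M).erase i, η ^ ((j - i) + (i - j)) ≤ 6 * η := by
  have h1 : ∀ j ∈ (range M).erase i, η ^ ((j - i) + (i - j)) ≤
      2 * η * (1 / 2 : ℝ) ^ ((j - i) + (i - j)) := by
    intro j hj
    have hne := ne_of_mem_erase hj
    obtain ⟨d, hd⟩ : ∃ d, (j - i) + (i - j) = d + 1 := ⟨(j - i) + (i - j) - 1, by omega⟩
    rw [hd, pow_succ, pow_succ]
    have h2 : η ^ d ≤ (1 / 2) ^ d := pow_le_pow_left₀ hη0 hη1 _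
    calc η ^ d * η ≤ (1 / 2) ^ d * η := mul_le_mul_of_nonneg_right h2 hη0
      _ = _ := by ring
  refine (sum_le_sum h1).trans ?_
  rw [← mul_sum]
  have h3 := sum_half_dist i M
  have h4 := add_sum_erase (range M) (fun j => (1 / 2 : ℝ) ^ ((j - i) + (i - j)))
    (mem_range.mpr hi)
  simp only [Nat.sub_self, add_zero, pow_zero] at h4
  have h5 : ∑ j ∈ (range M).erase i, (1 / 2 : ℝ) ^ ((j - i) + (i - j)) ≤ 3 := by linarith
  nlinarith

/-- The upper bound for large `t`. -/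
theorem p_big {t k s : ℕ} (hk : 60 ≤ k) (ht : 4 ^ k < 2 ^ 11 * k ^ 2 * t) :
    p (k * s + t) k (k * s) ≤ conj (k * s + t) k (k * s) := by
  classical
  set n := k * s + t with hn
  obtain ⟨F, hFn, hFK, hFc, hFD, hFS, -⟩ := exists_opt n k (k * s)
  rw [← hFc]
  by_cases hne : F.Nonempty
  swap
  · rw [not_nonempty_iff_eq_empty] at hne
    rw [hne]; simp
  obtain ⟨D0, hD0⟩ := hne
  have h0 : ∅ ∈ F := hFD D0 hD0 ∅ (empty_subset _)
  set A := conj n k (k * s) with hA
  have haA : ∀ i ≤ s, aa t k s i ≤ A := by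
    intro i hi
    have h1 := le_conj (n := n) (d := k * s) (i := i) (by omega) (Nat.mul_le_mul_left _ hi)
    have e1 : k * s - k * i = k * (s - i) := (Nat.mul_sub _ _ _).symm
    have e2 : n - k * s + k * i = t + k * i := by omega
    rw [e1, e2] at h1
    exact h1
  have hks : ∀ i ≤ s, k * (s - i) + k * i = k * s := fun i hi => by
    rw [← Nat.mul_add, Nat.sub_add_cancel hi]
  have hNi : ∀ i ≤ s, n - k * (s - i) = t + k * i := fun i hi => by have := hks i hi; omega
  -- trivial bound at each level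
  have hfi : ∀ i ≤ s, (F.filter (fun D => (D ∩ Ico (k * (s - i)) n).card ≤ i)).card ≤
      aa t k s i := by
    intro i hi
    have h1 := card_tail_le n (k * (s - i)) i
    rw [hNi i hi] at h1
    refine (card_le_card ?_).trans h1
    intro D hD
    rw [mem_filter] at hD ⊢
    exact ⟨hFn hD.1, hD.2⟩
  -- union bound over the levels
  have hcov : F.card ≤ ∑ i ∈ range (s + 1),
      (F.filter (fun D => (D ∩ Ico (k * (s - i)) n).card ≤ i)).card := by
    have h1 : F ⊆ (range (s + 1)).biUnion (fun i =>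
        F.filter (fun D => (D ∩ Ico (k * (s - i)) n).card ≤ i)) := by
      intro D hD
      obtain ⟨j, hj, hj'⟩ := hit (by omega) hFD hFS hFK h0 hD
      rw [mem_biUnion]
      refine ⟨s - j, mem_range.mpr (by omega), mem_filter.mpr ⟨hD, ?_⟩⟩
      have e1 : s - (s - j) = j := by omega
      rw [e1]
      have h2 : D ∩ Ico (k * j) n ⊆ D.filter (fun x => k * j ≤ x) := by
        intro x hx
        rw [mem_inter, mem_Ico] at hx
        rw [mem_filter]
        exact ⟨hx.1, hx.2.1⟩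
      have := card_le_card h2
      omega
    exact (card_le_card h1).trans card_biUnion_le
  -- parameters
  have hk4 : k ^ 4 * 2 ^ 36 ≤ 2 ^ k := by exact_mod_cast k4_small k hk
  have h2k60 : 2 ^ 60 ≤ 2 ^ k := Nat.pow_le_pow_right (by norm_num) hk
  set w := t / 2 ^ k with hw
  have hw1 : 2 ^ k * w ≤ t := Nat.mul_div_le _ _
  have hw2 : t < 2 ^ k * (w + 1) := Nat.lt_mul_div_succ _ (by positivity)
  have hwk : 2 * k ≤ w := by
    by_contra hcon
    have h1 : w + 1 ≤ 2 * k := by omega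
    have h2 : t < 2 ^ k * (2 * k) := lt_of_lt_of_le hw2 (Nat.mul_le_mul_left _ h1)
    have h3 : 4 ^ k < 2 ^ 11 * k ^ 2 * (2 ^ k * (2 * k)) :=
      ht.trans_le (Nat.mul_le_mul_left _ h2.le)
    have h4 : 4 ^ k = 2 ^ k * 2 ^ k := by
      rw [← mul_pow]
      norm_num
    rw [h4] at h3
    have h5 : 2 ^ k * 2 ^ k < 2 ^ k * (2 ^ 12 * k ^ 3) := by
      calc 2 ^ k * 2 ^ k < 2 ^ 11 * k ^ 2 * (2 ^ k * (2 * k)) := h3
        _ = _ := by ring
    have h6 : 2 ^ k < 2 ^ 12 * k ^ 3 := Nat.lt_of_mul_lt_mul_left h5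
    have h7 : 2 ^ 12 * k ^ 3 ≤ k ^ 4 * 2 ^ 36 := by
      calc 2 ^ 12 * k ^ 3 = k ^ 3 * 2 ^ 12 := by ring
        _ ≤ k ^ 4 * 2 ^ 36 := Nat.mul_le_mul (Nat.pow_le_pow_right (by omega) (by norm_num))
            (Nat.pow_le_pow_right (by norm_num) (by norm_num))
    omega
  set J := min (3 * w + 7) s with hJ
  have hJs : J ≤ s := min_le_right _ _
  have hJw : J ≤ 3 * w + 7 := min_le_left _ _
  set Λ : ℝ := 4 / 2 ^ k with hΛ
  have hΛ0 : 0 ≤ Λ := by rw [hΛ]; positivity
  have hfast : ∀ i ≤ J, Fast t i Λ := by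
    intro i hi
    refine fast_of ?_
    have h1 : i ≤ 3 * w + 7 := hi.trans hJw
    have h2 : i * 2 ^ k ≤ (3 * w + 7) * 2 ^ k := Nat.mul_le_mul_right _ h1
    have h3 : (3 * w + 7) * 2 ^ k + 4 * (3 * w + 7) ≤ 4 * (2 ^ k * w) := by
      have h4 : 1000 ≤ 2 ^ k := le_trans (by norm_num) h2k60
      obtain ⟨v, hv⟩ : ∃ v, w = v + 7 := ⟨w - 7, by omega⟩
      rw [hv]
      have h5 : 113 ≤ v := by omega
      nlinarith
    omega
  set a := k / 2 with ha
  set b := k - k / 2 with hb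
  have hab : a + b = k := by omega
  set Y : ℝ := 2 ^ (a - 2) with hY
  have hY1 : 1 ≤ Y := by rw [hY]; exact one_le_pow₀ (by norm_num)
  have hY0 : 0 < Y := by linarith
  have hΛY : Λ * Y = 1 / 2 ^ b := by
    rw [hΛ, hY]
    have e1 : (2 : ℝ) ^ k = 2 ^ (a - 2) * 4 * 2 ^ b := by
      have : (4 : ℝ) = 2 ^ 2 := by norm_num
      rw [this, ← pow_add, ← pow_add]
      congr 1
      omega
    rw [e1]
    field_simp
  -- b k 2^{-b} is small
  have hbk : 2 * (b * k) ≤ 2 ^ b := by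
    have h1 : k ≤ 2 * b := by omega
    have h2 : (2 * (b * k)) ^ 2 ≤ (2 ^ b) ^ 2 := by
      calc (2 * (b * k)) ^ 2 ≤ (2 * (k * k)) ^ 2 := by
            refine Nat.pow_le_pow_left (Nat.mul_le_mul_left _ (Nat.mul_le_mul_right _ (by omega))) _
        _ = k ^ 4 * 4 := by ring
        _ ≤ k ^ 4 * 2 ^ 36 := Nat.mul_le_mul_left _ (by norm_num)
        _ ≤ 2 ^ k := hk4
        _ ≤ 2 ^ (b * 2) := Nat.pow_le_pow_right (by norm_num) (by omega)
        _ = _ := by rw [pow_mul]
    exact (Nat.pow_le_pow_iff_left (by norm_num)).mp h2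
  have h2b : (0 : ℝ) < 2 ^ b := by positivity
  have hbk' : ((b * k : ℕ) : ℝ) * (1 / 2 ^ b) ≤ 1 / 2 := by
    have h1 : (2 : ℝ) * ((b * k : ℕ) : ℝ) ≤ 2 ^ b := by exact_mod_cast hbk
    rw [mul_one_div, div_le_iff₀ h2b]
    linarith
  have hk1' : ((k : ℕ) : ℝ) * (1 / 2 ^ b) ≤ 1 / 2 := by
    refine le_trans ?_ hbk'
    refine mul_le_mul_of_nonneg_right ?_ (by positivity)
    exact_mod_cast Nat.le_mul_of_pos_left _ (by omega)
  have hx1 : (1 : ℝ) / 2 ^ b < 1 := by
    rw [div_lt_one h2b]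
    exact one_lt_pow₀ (by norm_num) (by omega)
  have hΛY1 : Λ * Y < 1 := by rw [hΛY]; exact hx1
  have hY4 : 4 ≤ Y := by
    rw [hY]
    calc (4 : ℝ) = 2 ^ 2 := by norm_num
      _ ≤ _ := pow_le_pow_right₀ (by norm_num) (by omega)
  have hq1 : (1 + Λ * Y) ^ k ≤ Y / 2 := by
    rw [hΛY]
    have := pow_le_two (x := 1 / 2 ^ b) (m := k) (by positivity) hk1'
    linarith
  have hq2 : Y * ((1 + 1 / Y) / 2) ^ a ≤ 1 / 2 := by
    have h1 : (1 + 1 / Y) ^ a ≤ 2 := by
      refine pow_le_two (by positivity) ?_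
      rw [mul_one_div, div_le_iff₀ hY0]
      -- 2 a ≤ Y = 2^(a-2)
      have h2 : 2 * a ≤ 2 ^ (a - 2) := by
        have h3 : ∀ c : ℕ, 8 ≤ c → 2 * (c + 2) ≤ 2 ^ c := by
          intro c hc
          induction c, hc using Nat.le_induction with
          | base => norm_num
          | succ c hc ih => rw [pow_succ]; omega
        have := h3 (a - 2) (by omega)
        have e1 : a - 2 + 2 = a := by omega
        rwa [e1] at this
      have h4 : (2 : ℝ) * a ≤ Y := by rw [hY]; exact_mod_cast h2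
      linarith
    rw [div_pow]
    have e1 : (2 : ℝ) ^ a = 4 * Y := by
      rw [hY]
      have : (4 : ℝ) = 2 ^ 2 := by norm_num
      rw [this, ← pow_add]
      congr 1
      omega
    rw [e1]
    calc Y * ((1 + 1 / Y) ^ a / (4 * Y)) = (1 + 1 / Y) ^ a / 4 := by field_simp
      _ ≤ _ := by linarith
  have hkR : (60 : ℝ) ≤ k := by exact_mod_cast hk
  set η : ℝ := 1 / (32 * k) with hη
  have hη0 : 0 < η := by rw [hη]; positivity
  have hη1 : η ≤ 1 / 2 := by
    rw [hη, div_le_div_iff₀ (by positivity) (by norm_num)]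
    linarith
  have hkey : 4 * ((1 / (1 - Λ * Y)) ^ k * (1 + Λ * Y) ^ (b * k)) < η ^ k * Y ^ b := by
    rw [hΛY]
    have h1 := inv_pow_le_two (x := 1 / 2 ^ b) (m := k) hx1 hk1'
    have h2 := pow_le_two (x := 1 / 2 ^ b) (m := b * k) (by positivity) hbk'
    have h3 : 4 * ((1 / (1 - 1 / (2 : ℝ) ^ b)) ^ k * (1 + 1 / 2 ^ b) ^ (b * k)) ≤ 16 := by
      have h4 : (0 : ℝ) ≤ (1 / (1 - 1 / (2 : ℝ) ^ b)) ^ k := by
        have : 0 < 1 - 1 / (2 : ℝ) ^ b := by linarith
        positivity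
      have h5 : (0 : ℝ) ≤ (1 + 1 / (2 : ℝ) ^ b) ^ (b * k) := by positivity
      nlinarith
    refine lt_of_le_of_lt h3 ?_
    have h6 : 16 * (32 * k) ^ k < 2 ^ ((k / 2 - 2) * (k - k / 2)) := key_nat hk
    rw [← ha, ← hb] at h6
    have h7 : (16 : ℝ) * (32 * k) ^ k < 2 ^ ((a - 2) * b) := by exact_mod_cast h6
    rw [hη, hY, ← pow_mul, one_div, inv_pow, ← div_eq_inv_mul, lt_div_iff₀ (by positivity)]
    exact h7
  -- the exact step
  have h2kR : (0 : ℝ) < 2 ^ k := by positivity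
  have hkΛ : (k : ℝ) * 2 ^ 50 ≤ 2 ^ k := k_small hk
  have hkΛ2 : (k : ℝ) * Λ ≤ 4 / 2 ^ 50 := by
    rw [hΛ, mul_div_assoc', div_le_div_iff₀ h2kR (by positivity)]
    linarith
  have hnum : (1 + 16 * Λ) ^ k ≤ 2 := by
    refine pow_le_two (by positivity) ?_
    have : (k : ℝ) * (16 * Λ) = 16 * (k * Λ) := by ring
    rw [this]
    norm_num at hkΛ2 ⊢
    linarith
  have hnum2 : 256 * k * Λ ≤ 1 := by
    have : 256 * (k : ℝ) * Λ = 256 * (k * Λ) := by ring
    rw [this]
    norm_num at hkΛ2 ⊢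
    linarith
  by_cases hex : ∃ i ≤ J, 2 * ((k - 1) * (Rc F n (k * (s - i)) i).card) ≤
      (n - k * (s - i)).choose i
  · obtain ⟨i, hi, hsmall⟩ := hex
    have h1 := exact_k (by omega) (hi.trans hJs) hn hFK hFD hFS hΛ0 (hfast i hi) hnum hnum2 hsmall
    have h2 := exact_bound hFn hFD h1
    rw [hNi i (hi.trans hJs)] at h2
    exact h2.trans (haA i (hi.trans hJs))
  push Not at hex
  -- real versions
  set f : ℕ → ℝ := fun i =>
    ((F.filter (fun D => (D ∩ Ico (k * (s - i)) n).card ≤ i)).card : ℝ) with hf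
  set G : ℕ → ℝ := fun i => 2 ^ (k * (s - i)) * ((n - k * (s - i)).choose i : ℝ) with hG
  have haA' : ∀ i ≤ s, (aa t k s i : ℝ) ≤ (A : ℝ) := fun i hi => by exact_mod_cast haA i hi
  have hA0 : (0 : ℝ) ≤ A := Nat.cast_nonneg _
  have hf0 : ∀ i, 0 ≤ f i := fun i => Nat.cast_nonneg _
  have hfa : ∀ i ≤ s, f i ≤ (aa t k s i : ℝ) := fun i hi => by
    simp only [hf]; exact_mod_cast hfi i hi
  have hGpos : ∀ i ≤ s, 0 < G i := by
    intro i hi
    have h1 : 0 < (n - k * (s - i)).choose i := by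
      refine Nat.choose_pos ?_
      rw [hNi i hi]
      have : i ≤ k * i := Nat.le_mul_of_pos_left _ (by omega)
      omega
    have h2 : (0 : ℝ) < ((n - k * (s - i)).choose i : ℝ) := by exact_mod_cast h1
    simp only [hG]
    positivity
  have hGa : ∀ i ≤ s, G i ≤ (aa t k s i : ℝ) := by
    intro i hi
    simp only [hG]
    rw [hNi i hi]
    have h1 : 2 ^ (k * (s - i)) * (t + k * i).choose i ≤ aa t k s i := by
      unfold aa
      refine Nat.mul_le_mul_left _ ?_
      exact single_le_sum (f := fun v => (t + k * i).choose v) (fun _ _ => Nat.zero_le _)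
        (mem_range.mpr (Nat.lt_succ_self i))
    exact_mod_cast h1
  have hΛsm : Λ ≤ 1 / 1000 := by
    have : Λ ≤ k * Λ := by nlinarith
    norm_num at hkΛ2 ⊢
    linarith
  have haG : ∀ i ≤ J, (aa t k s i : ℝ) * (1 - Λ) ≤ G i := by
    intro i hi
    have his := hi.trans hJs
    have h1 := inner_le (h := 0) (Y := 1) (M := t + k * i) hΛ0 one_pos (by linarith)
      (hfast i hi) (by omega)
    have h2 : (∑ v ∈ range (i + 1), ((t + k * i).choose v : ℝ)) ≤
        ∑ g ∈ range (t + k * i + 1), ((t + k * i).choose g : ℝ) *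
          (if 0 + g ≤ i then (1 / 1 : ℝ) ^ g else 0) := by
      have h3 : ∑ g ∈ range (t + k * i + 1), ((t + k * i).choose g : ℝ) *
          (if 0 + g ≤ i then (1 / 1 : ℝ) ^ g else 0) =
          ∑ g ∈ (range (t + k * i + 1)).filter (fun g => g ≤ i), ((t + k * i).choose g : ℝ) := by
        rw [sum_filter]
        refine sum_congr rfl (fun g _ => ?_)
        rw [zero_add]
        split_ifs <;> simp
      rw [h3]
      refine sum_le_sum_of_subset_of_nonneg ?_ (fun _ _ _ => Nat.cast_nonneg _)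
      intro g hg
      rw [mem_range] at hg
      rw [mem_filter, mem_range]
      have : i ≤ k * i := Nat.le_mul_of_pos_left _ (by omega)
      omega
    have h4 := h2.trans h1
    rw [pow_zero, mul_one, one_div_one, one_pow, mul_one] at h4
    have hden : 0 < 1 - Λ := by linarith
    have h5 : (∑ v ∈ range (i + 1), ((t + k * i).choose v : ℝ)) * (1 - Λ) ≤
        ((t + k * i).choose i : ℝ) := by
      calc (∑ v ∈ range (i + 1), ((t + k * i).choose v : ℝ)) * (1 - Λ)
          ≤ (1 / (1 - Λ) * ((t + k * i).choose i : ℝ)) * (1 - Λ) :=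
            mul_le_mul_of_nonneg_right h4 hden.le
        _ = _ := by field_simp
    simp only [hG]
    rw [hNi i his]
    unfold aa
    push_cast
    rw [mul_assoc]
    exact mul_le_mul_of_nonneg_left h5 (by positivity)
  have hfbound : ∀ i ≤ J, f i ≤ A * (1 - (1 - Λ) / (4 * k)) := by
    intro i hi
    have his := hi.trans hJs
    have h1 := inside_le (m := k * (s - i)) (i := i) hFn
    rw [hNi i his] at h1
    have h2 := hex i hi
    have h3 : 2 * f i + 2 ^ (k * (s - i)) * ((Rc F n (k * (s - i)) i).card : ℝ) ≤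
        2 * (aa t k s i : ℝ) := by
      simp only [hf]
      unfold aa
      exact_mod_cast h1
    have h4 : ((n - k * (s - i)).choose i : ℝ) ≤ 2 * (k * (Rc F n (k * (s - i)) i).card) := by
      have h5 : (n - k * (s - i)).choose i ≤ 2 * (k * (Rc F n (k * (s - i)) i).card) := by
        refine h2.le.trans (Nat.mul_le_mul_left _ (Nat.mul_le_mul_right _ (by omega)))
      exact_mod_cast h5
    have h5 : G i ≤ 2 * k * (2 ^ (k * (s - i)) * ((Rc F n (k * (s - i)) i).card : ℝ)) := by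
      simp only [hG]
      calc (2 : ℝ) ^ (k * (s - i)) * ((n - k * (s - i)).choose i : ℝ)
          ≤ 2 ^ (k * (s - i)) * (2 * (k * (Rc F n (k * (s - i)) i).card)) :=
            mul_le_mul_of_nonneg_left h4 (by positivity)
        _ = _ := by ring
    have h6 := haG i hi
    have h7 := haA' i his
    have hk0 : (0 : ℝ) < k := by linarith
    have h8 : (aa t k s i : ℝ) * (1 - Λ) / (2 * k) ≤
        2 ^ (k * (s - i)) * ((Rc F n (k * (s - i)) i).card : ℝ) := by
      rw [div_le_iff₀ (by positivity)]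
      linarith
    have h9 : f i ≤ (aa t k s i : ℝ) * (1 - (1 - Λ) / (4 * k)) := by
      have e1 : (aa t k s i : ℝ) * (1 - (1 - Λ) / (4 * k)) =
          (aa t k s i : ℝ) - (aa t k s i : ℝ) * (1 - Λ) / (2 * k) / 2 := by
        field_simp; ring
      rw [e1]
      linarith
    refine h9.trans (mul_le_mul_of_nonneg_right h7 ?_)
    have : (1 - Λ) / (4 * k) ≤ 1 := by
      rw [div_le_one (by positivity)]
      linarith
    linarith
  -- the level of largest density
  obtain ⟨i0, hi0, hi0max⟩ := exists_max_image (range (J + 1)) (fun i => f i / G i)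
    ⟨0, mem_range.mpr (by omega)⟩
  rw [mem_range] at hi0
  have hother : ∀ j ∈ (range (J + 1)).erase i0, f j ≤ η ^ ((j - i0) + (i0 - j)) * A := by
    intro j hj
    have hjne := ne_of_mem_erase hj
    have hjJ : j < J + 1 := mem_range.mp (mem_of_mem_erase hj)
    have hmax := hi0max j (mem_range.mpr hjJ)
    have hGi := hGpos i0 (by omega)
    have hGj := hGpos j (by omega)
    have hGjA : G j ≤ A := (hGa j (by omega)).trans (haA' j (by omega))
    have hfin : f j ≤ η ^ ((j - i0) + (i0 - j)) * G j := by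
      have hcase : f i0 ≤ η ^ ((j - i0) + (i0 - j)) * G i0 →
          f j ≤ η ^ ((j - i0) + (i0 - j)) * G j := by
        intro h
        have h1 : f i0 / G i0 ≤ η ^ ((j - i0) + (i0 - j)) := by
          rw [div_le_iff₀ hGi]; exact h
        have h2 := hmax.trans h1
        rwa [div_le_iff₀ hGj] at h2
      rcases Nat.lt_or_gt_of_ne hjne with h | h
      · obtain ⟨l, rfl⟩ : ∃ l, i0 = j + l := ⟨i0 - j, by omega⟩
        have e1 : j - (j + l) + (j + l - j) = l := by omega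
        rw [e1] at hcase ⊢
        rcases two_k (i := j) (l := l) hab hn (by omega) (by omega) hFn hFK hFD hFS hΛ0 hY1 hΛY1
          (hfast (j + l) (by omega)) hq1 hq2 hη0 (by omega) hkey with h1 | h1
        · exact h1
        · exact hcase h1
      · obtain ⟨l, rfl⟩ : ∃ l, j = i0 + l := ⟨j - i0, by omega⟩
        have e1 : i0 + l - i0 + (i0 - (i0 + l)) = l := by omega
        rw [e1] at hcase ⊢
        rcases two_k (i := i0) (l := l) hab hn (by omega) (by omega) hFn hFK hFD hFS hΛ0 hY1 hΛY1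
          (hfast (i0 + l) (by omega)) hq1 hq2 hη0 (by omega) hkey with h1 | h1
        · exact hcase h1
        · exact h1
    exact hfin.trans (mul_le_mul_of_nonneg_left hGjA (by positivity))
  have htail := tail_big (A := (A : ℝ)) hk hw2 hwk haA'
  have hcov' : (F.card : ℝ) ≤ ∑ i ∈ range (s + 1), f i := by
    simp only [hf]; exact_mod_cast hcov
  have hsplit : ∑ i ∈ range (s + 1), f i ≤ ∑ i ∈ range (J + 1), f i +
      ∑ i ∈ Ico (3 * w + 8) (s + 1), (aa t k s i : ℝ) := by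
    rcases Nat.lt_or_ge s (3 * w + 8) with h | h
    · have e1 : J = s := by omega
      rw [e1, Ico_eq_empty (by omega), sum_empty, add_zero]
    · have e1 : J + 1 = 3 * w + 8 := by omega
      rw [e1, ← sum_range_add_sum_Ico f (show 3 * w + 8 ≤ s + 1 by omega)]
      refine add_le_add le_rfl (sum_le_sum (fun i hi => ?_))
      rw [mem_Ico] at hi
      exact hfa i (by omega)
  have hsumJ : ∑ i ∈ range (J + 1), f i ≤ A * (1 - (1 - Λ) / (4 * k)) + 6 * η * A := by
    rw [← add_sum_erase (range (J + 1)) f (mem_range.mpr hi0)]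
    refine add_le_add (hfbound i0 (by omega)) ?_
    refine (sum_le_sum hother).trans ?_
    rw [← sum_mul]
    exact mul_le_mul_of_nonneg_right (sum_eta hη0.le hη1 hi0) hA0
  have hnumfin : -((1 - Λ) / (4 * k)) + 6 * η + 3 / 2 ^ k ≤ 0 := by
    have hk0 : (0 : ℝ) < k := by linarith
    have h1 : (3 : ℝ) / 2 ^ k ≤ (3 / 2 ^ 50) / k := by
      rw [div_div, div_le_div_iff₀ h2kR (by positivity)]
      linarith
    have h2 : 6 * η = (6 / 32) / k := by rw [hη]; field_simp
    have h3 : (1 - Λ) / (4 * k) = ((1 - Λ) / 4) / k := by rw [div_div]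
    rw [h2, h3]
    have h4 : -((1 - Λ) / 4 / k) + 6 / 32 / (k : ℝ) + 3 / 2 ^ 50 / k =
        (-((1 - Λ) / 4) + 6 / 32 + 3 / 2 ^ 50) / k := by ring
    refine (add_le_add le_rfl h1).trans ?_
    rw [h4]
    refine div_nonpos_of_nonpos_of_nonneg ?_ hk0.le
    norm_num
    linarith
  have hfinal : (F.card : ℝ) ≤ A := by
    have h1 := hcov'.trans (hsplit.trans (add_le_add hsumJ htail))
    have h2 : (A : ℝ) * (1 - (1 - Λ) / (4 * k)) + 6 * η * A + A * (3 / 2 ^ k) =
        A + A * (-((1 - Λ) / (4 * k)) + 6 * η + 3 / 2 ^ k) := by ring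
    rw [h2] at h1
    have h3 := mul_nonpos_of_nonneg_of_nonpos hA0 hnumfin
    linarith
  exact_mod_cast hfinal

end Pool.Agent.H69.EF
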