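import Pool.Agent.H69.EF.Hat
import Pool.Agent.H93.EF.LC

set_option autoImplicit false

open Finset

namespace Pool.Agent.H69.EF

open Pool.Agent.H90.EF
open Pool.Agent.H79.EF (LC bal HHj Fin5)
open Pool.Agent.H93.EF (Nb)
open Pool.Agent.H79.EF (TT_Nb lc_Nb lc_TT bal_le)

theorem TT_iter_Nb (m y : ℕ) : TT^[y] (Nb m) = Nb (m + y) := by
  induction y with
  | zero => rfl
  | succ y ih => rw [Function.iterate_succ_apply', ih, TT_Nb]; rfl

theorem lc_iter {N : ℤ → ℝ} (h : LC N) (y : ℕ) : LC (TT^[y] N) := by
  induction y with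
  | zero => exact h
  | succ y ih => rw [Function.iterate_succ_apply']; exact lc_TT ih

theorem bal_mul {k : ℕ} (hk : 1 ≤ k) (n c : ℕ) : bal k n (k * c) = Nb n c ^ k := by
  unfold bal
  rw [Nat.mul_div_cancel_left c (by omega), Nat.mul_mod_right, Nat.sub_zero, pow_zero, mul_one]

/-- **Finish.** A state `(t, α)` with `Fin5` is bounded by the balanced products of the levels. -/
theorem finish {k t α c : ℕ} (hk : 2 ≤ k) {x ρ : ℝ} (hx0 : 0 < x) (hx1 : x < 1)
    (h1 : (1 + x) ^ k ≤ 2 ^ k * x) (h2 : (1 + x) ^ k ≤ 2) (hF : Fin5 k t α c x ρ) {M : ℝ} {W : ℕ}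
    (hM : ∀ σ, α ≤ σ → σ ≤ α + W → bal k (t + σ) σ ≤ 2 ^ (k * σ) * M) :
    Bd (Fin k) W α (Nb (t + α)) (2 ^ (k * (α + W)) * M) := by
  obtain ⟨hαc, hc1, hc2, hF⟩ := hF
  have hNc : 0 < Nb (t + k * c) c := (lc_Nb _).pos _ (by positivity)
  -- `M` is nonnegative
  have hM0 : 0 ≤ M := by
    have h3 := hM α le_rfl (by omega)
    have h4 : 0 ≤ bal k (t + α) α := by
      unfold bal
      exact mul_nonneg (pow_nonneg (LC.nonneg (lc_Nb _) _) _)
        (pow_nonneg (LC.nonneg (lc_Nb _) _) _)
    have h5 : (0 : ℝ) < 2 ^ (k * α) := by positivity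
    exact nonneg_of_mul_nonneg_right (h4.trans h3) h5
  rcases hF with hα | ⟨hρ, hρ1, hρ2, hcond, hHlt, hHc⟩
  · -- `α = k c`: exponential majorant
    subst hα
    have h3 := thmG (k := k) (by omega) hx0 hx1 h1 h2 (W := W) (α := ((k * c : ℕ) : ℤ))
      (by omega) (N := Nb (t + k * c)) (C := Nb (t + k * c) c * x ^ (c : ℤ)) (by positivity)
      (fun p => LC.nonneg (lc_Nb _) p) (fun p hp => (lc_Nb _).neg p hp) (by
        intro p _
        have h4 := LC.le_two (lc_Nb (t + k * c)) (c := c) (by positivity) hx0 hc1 hc2 p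
        have e : x ^ (-(p - (c : ℤ))) = x ^ (c : ℤ) * x ^ (-p) := by
          rw [← zpow_add₀ hx0.ne']; congr 1; ring
        rw [e] at h4
        linarith)
    refine h3.mono_const ?_
    have h4 := hM (k * c) le_rfl (by omega)
    rw [bal_mul (by omega)] at h4
    have e : (Nb (t + k * c) c * x ^ (c : ℤ)) ^ k * x ^ (-(((k * c : ℕ) : ℤ))) =
        Nb (t + k * c) c ^ k := by
      rw [mul_pow, zpow_natCast, ← pow_mul, zpow_neg, zpow_natCast, mul_comm c k]
      field_simp
    rw [e]
    calc (2 : ℝ) ^ (k * W) * Nb (t + k * c) c ^ k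
        ≤ 2 ^ (k * W) * (2 ^ (k * (k * c)) * M) := mul_le_mul_of_nonneg_left h4 (by positivity)
      _ = 2 ^ (k * (k * c + W)) * M := by rw [← mul_assoc, ← pow_add]; congr 2; ring
  · -- the majorant `hat`
    have hlc : LC (Nb (t + α)) := lc_Nb _
    have hc0 : (0 : ℤ) ≤ c := by positivity
    have hhat := lc_hat hlc hc0 hρ hρ1 hρ2
    set H := hat (Nb (t + α)) c ρ with hHdef
    have hagree : ∀ p ≤ (c : ℤ), H p = Nb (t + α) p := fun p hp => hat_of_le hp
    refine (thmA2 (k := k) (by omega) hx0 hx1 h1 (N := H) (fun j => LC.nonneg hhat j)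
      hhat.neg hhat.pos hhat.mono (fun j hj => ?_) (α := (α : ℤ)) (by omega)
      (K := 2 ^ (k * (α + W)) * M) (by positivity) ?_).mono_fun
      (fun p => LC.nonneg hlc p) (fun p => le_hat hlc hc0 hρ hρ1 p)
    · refine HHj_hat (by omega) hx0 hlc hc0 hρ hρ2 (fun i hi hic => ?_) hHc j hj
      obtain ⟨m, rfl⟩ := Int.eq_ofNat_of_zero_le hi
      exact hHlt m (by omega)
    · intro y hy j hj
      rcases le_or_gt (α + y) (k * c) with hyc | hyc
      · -- the levels up to `k c`
        have hkpos : 0 < k := by omega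
        have hdm := Nat.div_add_mod (α + y) k
        have hr := Nat.mod_lt (α + y) hkpos
        set i := (α + y) / k with hi
        set r := (α + y) % k with hrdef
        have h3 := LC.prod_le (lc_iter hhat y) (i := (i : ℤ)) (by positivity) (r := r) hr.le j (by
          have e : ((α + y : ℕ) : ℤ) = k * i + r := by exact_mod_cast hdm.symm
          push_cast at e
          rw [← e]
          exact_mod_cast hj)
        have hic : i ≤ c := by
          have := Nat.div_le_div_right (c := k) hyc
          rwa [Nat.mul_div_cancel_left c hkpos] at this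
        have hv1 : (TT^[y] H) (i : ℤ) = Nb (t + (α + y)) i := by
          rw [TT_iter_congr y hagree i (by exact_mod_cast hic), TT_iter_Nb]
          congr 1; ring
        have h4 : (TT^[y] H) (i : ℤ) ^ (k - r) * (TT^[y] H) ((i : ℤ) + 1) ^ r =
            bal k (t + (α + y)) (α + y) := by
          unfold bal
          rw [← hi, ← hrdef, hv1]
          rcases Nat.eq_zero_or_pos r with h0 | hpos
          · rw [h0, pow_zero, pow_zero]
          · have hic' : i + 1 ≤ c := by
              by_contra hcon
              have : i = c := by omega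
              rw [this] at hdm
              omega
            have hv2 : (TT^[y] H) ((i : ℤ) + 1) = Nb (t + (α + y)) ((i : ℤ) + 1) := by
              rw [TT_iter_congr y hagree ((i : ℤ) + 1) (by exact_mod_cast hic'), TT_iter_Nb]
              congr 1; ring
            rw [hv2]
        rw [h4] at h3
        have h5 := hM (α + y) (by omega) (by omega)
        calc (2 : ℝ) ^ (k * (W - y)) * ∏ l, (TT^[y] H) (j l)
            ≤ 2 ^ (k * (W - y)) * (2 ^ (k * (α + y)) * M) :=
              mul_le_mul_of_nonneg_left (h3.trans h5) (by positivity)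
          _ = 2 ^ (k * (α + W)) * M := by
              rw [← mul_assoc, ← pow_add, ← mul_add]
              congr 3; omega
      · -- the levels beyond `k c`
        obtain ⟨z, rfl⟩ : ∃ z, y = (k * c - α) + z := ⟨y - (k * c - α), by omega⟩
        set y0 := k * c - α with hy0
        have hlc0 := lc_iter hhat y0
        have hv1 : (TT^[y0] H) (c : ℤ) = Nb (t + k * c) c := by
          rw [TT_iter_congr y0 hagree c le_rfl, TT_iter_Nb]
          congr 1; omega
        have hv0 : (TT^[y0] H) ((c : ℤ) - 1) = Nb (t + k * c) ((c : ℤ) - 1) := by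
          rw [TT_iter_congr y0 hagree ((c : ℤ) - 1) (by omega), TT_iter_Nb]
          congr 1; omega
        have hv2 : (TT^[y0] H) ((c : ℤ) + 1) =
            Nb (t + k * c) ((c : ℤ) + 1) + Nb (t + α) c / ρ - Nb (t + α) ((c : ℤ) + 1) := by
          rw [TT_iter_succ y0 hagree, TT_iter_Nb, hHdef, hat_succ le_rfl, hat_of_le le_rfl]
          rw [show t + α + y0 = t + k * c by omega]
          ring
        have hexp : ∀ p, (TT^[y0] H) p ≤ Nb (t + k * c) c * x ^ (-(p - (c : ℤ))) := by
          intro p
          have h3 := LC.le_two hlc0 hc0 hx0 (by rw [hv2, hv1]; exact hcond)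
            (by rw [hv0, hv1]; exact hc2) p
          rwa [hv1] at h3
        have hit : TT^[y0 + z] H = TT^[z] (TT^[y0] H) := by
          rw [← Function.iterate_add_apply, add_comm]
        rw [hit]
        have h3 : ∏ l, (TT^[z] (TT^[y0] H)) (j l) ≤
            ∏ l, (Nb (t + k * c) c * (1 + x) ^ z * x ^ (-(j l - (c : ℤ)))) := by
          refine prod_le_prod (fun l _ => ?_) (fun l _ => TT_iter_le_exp hx0 hexp z (j l))
          exact LC.nonneg (lc_iter hlc0 z) _
        have h4 : ∏ l, (Nb (t + k * c) c * (1 + x) ^ z * x ^ (-(j l - (c : ℤ)))) =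
            (Nb (t + k * c) c * (1 + x) ^ z) ^ k * x ^ (-(∑ l, j l - k * c)) := by
          rw [prod_mul_distrib, prod_const, card_univ, Fintype.card_fin]
          congr 1
          rw [show -(∑ l, j l - (k : ℤ) * c) = ∑ l, -(j l - (c : ℤ)) by
            rw [sum_neg_distrib, sum_sub_distrib, sum_const, card_univ, Fintype.card_fin,
              nsmul_eq_mul]]
          have : ∀ s : Finset (Fin k), ∏ l ∈ s, x ^ (-(j l - (c : ℤ))) =
              x ^ (∑ l ∈ s, -(j l - (c : ℤ))) := by
            intro s
            induction s using Finset.induction_on with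
            | empty => simp
            | insert a s ha ih => rw [prod_insert ha, sum_insert ha, zpow_add₀ hx0.ne', ih]
          exact this univ
        have h5 : x ^ (-(∑ l, j l - (k : ℤ) * c)) ≤ x ^ (-(z : ℤ)) := by
          refine zpow_le_zpow_right_of_le_one₀ hx0 hx1.le ?_
          push_cast at hj
          have e : ((y0 : ℕ) : ℤ) = k * c - α := by
            rw [hy0, Nat.cast_sub hαc]; push_cast; rfl
          rw [e] at hj
          linarith
        have h6 : (Nb (t + k * c) c * (1 + x) ^ z) ^ k * x ^ (-(z : ℤ)) ≤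
            Nb (t + k * c) c ^ k * 2 ^ (k * z) := by
          rw [mul_pow, mul_assoc]
          refine mul_le_mul_of_nonneg_left ?_ (by positivity)
          rw [zpow_neg, zpow_natCast, ← div_eq_mul_inv, div_le_iff₀ (by positivity), ← pow_mul,
            mul_comm z k, pow_mul, pow_mul, ← mul_pow]
          exact pow_le_pow_left₀ (by positivity) h1 z
        have h7 := hM (k * c) hαc (by omega)
        rw [bal_mul (by omega)] at h7
        calc (2 : ℝ) ^ (k * (W - (y0 + z))) * ∏ l, (TT^[z] (TT^[y0] H)) (j l)
            ≤ 2 ^ (k * (W - (y0 + z))) * (Nb (t + k * c) c ^ k * 2 ^ (k * z)) := by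
              refine mul_le_mul_of_nonneg_left ?_ (by positivity)
              refine (h3.trans (le_of_eq h4)).trans (le_trans ?_ h6)
              exact mul_le_mul_of_nonneg_left h5 (by positivity)
          _ ≤ 2 ^ (k * (W - (y0 + z))) * (2 ^ (k * (k * c)) * M * 2 ^ (k * z)) :=
              mul_le_mul_of_nonneg_left
                (mul_le_mul_of_nonneg_right h7 (by positivity)) (by positivity)
          _ = 2 ^ (k * (W - (y0 + z))) * 2 ^ (k * (k * c)) * 2 ^ (k * z) * M := by ring
          _ = 2 ^ (k * (α + W)) * M := by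
              rw [← pow_add, ← pow_add, ← mul_add, ← mul_add]
              congr 3
              omega

end Pool.Agent.H69.EF
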