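import Pool.Agent.H90.EF.Iface

set_option autoImplicit false

open Finset

namespace Pool.Agent.H69.EF

open Pool.Agent.H90.EF
open Pool.Agent.H79.EF (LC bal HHj Fin5)
open Pool.Agent.H93.EF (Nb)

/-- the ratio of consecutive values is at most one -/
theorem LC.ratio_le {N : ℤ → ℝ} (h : LC N) {i : ℤ} (hi : 0 ≤ i) : N i / N (i + 1) ≤ 1 :=
  (div_le_one (h.pos _ (by omega))).mpr (h.mono (by omega))

theorem LC.nonneg {N : ℤ → ℝ} (h : LC N) (j : ℤ) : 0 ≤ N j := by
  rcases lt_or_ge j 0 with hj | hj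
  · rw [h.neg j hj]
  · exact (h.pos j hj).le

/-- upward exponential bound -/
theorem LC.le_up {N : ℤ → ℝ} (h : LC N) {i : ℤ} (hi : 0 ≤ i) {x : ℝ} (hx : 0 < x)
    (hr : x * N (i + 1) ≤ N i) : ∀ m : ℕ, x ^ m * N (i + m) ≤ N i := by
  have hstep : ∀ m : ℕ, x * N (i + m + 1) ≤ N (i + m) := by
    intro m
    induction m with
    | zero => simpa using hr
    | succ m ih =>
      have h1 := h.lc (i + m + 1)
      have e1 : i + (m : ℤ) + 1 - 1 = i + m := by ring
      rw [e1] at h1
      have h2 := h.pos (i + m) (by omega)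
      have h3 := h.pos (i + m + 1) (by omega)
      push_cast
      have e2 : i + ((m : ℤ) + 1) + 1 = i + m + 1 + 1 := by ring
      have e3 : i + ((m : ℤ) + 1) = i + m + 1 := by ring
      rw [e2, e3]
      -- N (i+m) * N(i+m+2) ≤ N(i+m+1)^2
      have h4 : N (i + m) * (x * N (i + m + 1 + 1)) ≤ N (i + m) * N (i + m + 1) := by
        calc N (i + m) * (x * N (i + m + 1 + 1)) = x * (N (i + m) * N (i + m + 1 + 1)) := by ring
          _ ≤ x * N (i + m + 1) ^ 2 := mul_le_mul_of_nonneg_left h1 hx.le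
          _ = (x * N (i + m + 1)) * N (i + m + 1) := by ring
          _ ≤ N (i + m) * N (i + m + 1) := mul_le_mul_of_nonneg_right ih h3.le
      exact le_of_mul_le_mul_left h4 h2
  intro m
  induction m with
  | zero => simp
  | succ m ih =>
    have h1 := hstep m
    have e3 : i + ((m + 1 : ℕ) : ℤ) = i + m + 1 := by push_cast; ring
    rw [e3, pow_succ, mul_assoc]
    exact (mul_le_mul_of_nonneg_left h1 (pow_nonneg hx.le m)).trans ih

/-- downward exponential bound -/
theorem LC.le_down {N : ℤ → ℝ} (h : LC N) {i : ℤ} {x : ℝ} (hx : 0 < x)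
    (hr : N (i - 1) ≤ x * N i) : ∀ m : ℕ, N (i - m) ≤ x ^ m * N i := by
  have hstep : ∀ m : ℕ, N (i - m - 1) ≤ x * N (i - m) := by
    intro m
    induction m with
    | zero => simpa using hr
    | succ m ih =>
      rcases lt_or_ge (i - m - 1) 0 with hneg | hpos
      · rw [h.neg (i - (m + 1 : ℕ) - 1) (by push_cast; omega)]
        exact mul_nonneg hx.le (LC.nonneg h _)
      have h1 := h.lc (i - m - 1)
      have e1 : i - (m : ℤ) - 1 + 1 = i - m := by ring
      rw [e1] at h1
      have h2 := h.pos (i - m) (by omega)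
      have h3 := h.pos (i - m - 1) (by omega)
      have e2 : i - ((m + 1 : ℕ) : ℤ) - 1 = i - m - 1 - 1 := by push_cast; ring
      have e3 : i - ((m + 1 : ℕ) : ℤ) = i - m - 1 := by push_cast; ring
      rw [e2, e3]
      have h4 : N (i - m) * N (i - m - 1 - 1) ≤ N (i - m) * (x * N (i - m - 1)) := by
        calc N (i - m) * N (i - m - 1 - 1) = N (i - m - 1 - 1) * N (i - m) := by ring
          _ ≤ N (i - m - 1) ^ 2 := h1
          _ = N (i - m - 1) * N (i - m - 1) := by ring
          _ ≤ (x * N (i - m)) * N (i - m - 1) := mul_le_mul_of_nonneg_right ih h3.le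
          _ = N (i - m) * (x * N (i - m - 1)) := by ring
      exact le_of_mul_le_mul_left h4 h2
  intro m
  induction m with
  | zero => simp
  | succ m ih =>
    have h1 := hstep m
    have e3 : i - ((m + 1 : ℕ) : ℤ) = i - m - 1 := by push_cast; ring
    rw [e3, pow_succ]
    calc N (i - m - 1) ≤ x * N (i - m) := h1
      _ ≤ x * (x ^ m * N i) := mul_le_mul_of_nonneg_left ih hx.le
      _ = x ^ m * x * N i := by ring

/-- two-sided exponential majorant -/
theorem LC.le_two {N : ℤ → ℝ} (h : LC N) {c : ℤ} (hc : 0 ≤ c) {x : ℝ} (hx : 0 < x)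
    (h1 : x * N (c + 1) ≤ N c) (h2 : N (c - 1) ≤ x * N c) (j : ℤ) :
    N j ≤ N c * x ^ (-(j - c)) := by
  rcases le_total c j with hj | hj
  · obtain ⟨m, rfl⟩ : ∃ m : ℕ, j = c + m := ⟨(j - c).toNat, by omega⟩
    have h3 := LC.le_up h hc hx h1 m
    have e : -(c + (m : ℤ) - c) = -(m : ℤ) := by ring
    rw [e, zpow_neg, zpow_natCast, ← div_eq_mul_inv, le_div_iff₀ (pow_pos hx m)]
    linarith
  · obtain ⟨m, rfl⟩ : ∃ m : ℕ, j = c - m := ⟨(c - j).toNat, by omega⟩
    have h3 := LC.le_down h hx h2 m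
    have e : -(c - (m : ℤ) - c) = (m : ℤ) := by ring
    rw [e, zpow_natCast]
    linarith

/-- products with bounded sum of arguments are bounded by the balanced one -/
theorem LC.prod_le {k : ℕ} {N : ℤ → ℝ} (h : LC N) {i : ℤ} (hi : 0 ≤ i) {r : ℕ} (hr : r ≤ k)
    (j : Fin k → ℤ) (hj : ∑ l, j l ≤ k * i + r) :
    ∏ l, N (j l) ≤ N i ^ (k - r) * N (i + 1) ^ r := by
  have hNi := h.pos i hi
  have hNi1 := h.pos (i + 1) (by omega)
  set g := N i / N (i + 1) with hg
  have hg0 : 0 < g := by positivity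
  have hg1 : g ≤ 1 := LC.ratio_le h hi
  have hup : g * N (i + 1) ≤ N i := by rw [hg]; field_simp; exact le_rfl
  have hdown : N (i - 1) ≤ g * N i := by
    rw [hg, div_mul_eq_mul_div, le_div_iff₀ hNi1]
    have := h.lc i
    nlinarith
  have h1 : ∏ l, N (j l) ≤ ∏ l, (N i * g ^ (-(j l - i))) :=
    prod_le_prod (fun l _ => LC.nonneg h _) (fun l _ => LC.le_two h hi hg0 hup hdown (j l))
  refine h1.trans ?_
  rw [prod_mul_distrib, prod_const, card_univ, Fintype.card_fin]
  have h2 : ∏ l, g ^ (-(j l - i)) = g ^ (-(∑ l, j l - k * i)) := by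
    rw [show -(∑ l, j l - k * i) = ∑ l, -(j l - i) by
      rw [sum_neg_distrib, sum_sub_distrib, sum_const, card_univ, Fintype.card_fin, nsmul_eq_mul]]
    have : ∀ s : Finset (Fin k), ∏ l ∈ s, g ^ (-(j l - i)) = g ^ (∑ l ∈ s, -(j l - i)) := by
      intro s
      induction s using Finset.induction_on with
      | empty => simp
      | insert a s ha ih =>
        rw [prod_insert ha, sum_insert ha, zpow_add₀ hg0.ne', ih]
    exact this univ
  rw [h2]
  have h3 : g ^ (-(∑ l, j l - k * i)) ≤ g ^ (-(r : ℤ)) := by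
    refine zpow_le_zpow_right_of_le_one₀ hg0 hg1 ?_
    omega
  calc N i ^ k * g ^ (-(∑ l, j l - k * i)) ≤ N i ^ k * g ^ (-(r : ℤ)) :=
        mul_le_mul_of_nonneg_left h3 (pow_nonneg hNi.le k)
    _ = N i ^ (k - r) * N (i + 1) ^ r := by
        rw [zpow_neg, zpow_natCast, hg, div_pow, inv_div]
        obtain ⟨m, rfl⟩ : ∃ m, k = m + r := ⟨k - r, by omega⟩
        rw [Nat.add_sub_cancel, pow_add]
        field_simp

/-! ## The geometric continuation beyond `c` -/

/-- `N` up to `c`, geometric with the ratio `1 / ρ` beyond -/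
noncomputable def hat (N : ℤ → ℝ) (c : ℤ) (ρ : ℝ) : ℤ → ℝ := fun p =>
  if p ≤ c then N p else N c / ρ ^ (p - c).toNat

theorem hat_of_le {N : ℤ → ℝ} {c p : ℤ} {ρ : ℝ} (hp : p ≤ c) : hat N c ρ p = N p := if_pos hp

theorem hat_succ {N : ℤ → ℝ} {c p : ℤ} {ρ : ℝ} (hp : c ≤ p) :
    hat N c ρ (p + 1) = hat N c ρ p / ρ := by
  unfold hat
  rw [if_neg (by omega)]
  rcases eq_or_lt_of_le hp with h | h
  · subst h
    rw [if_pos le_rfl, show (c + 1 - c).toNat = 1 by omega, pow_one]
  · rw [if_neg (by omega), show (p + 1 - c).toNat = (p - c).toNat + 1 by omega,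
      pow_succ, div_div]

section Hat

variable {N : ℤ → ℝ} {c : ℤ} {ρ : ℝ}

theorem rho_le_one (h : LC N) (hc : 0 ≤ c) (h1 : ρ * N (c + 1) ≤ N c) : ρ ≤ 1 := by
  have hNc1 := h.pos (c + 1) (by omega)
  have h2 : N c ≤ N (c + 1) := h.mono (by omega)
  by_contra hcon
  push Not at hcon
  have : N (c + 1) < ρ * N (c + 1) := lt_mul_of_one_lt_left hNc1 hcon
  linarith

theorem lc_hat (h : LC N) (hc : 0 ≤ c) (hρ : 0 < ρ) (h1 : ρ * N (c + 1) ≤ N c)
    (h2 : N (c - 1) ≤ ρ * N c) : LC (hat N c ρ) := by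
  have hρ1 := rho_le_one h hc h1
  have hNc := h.pos c hc
  have hpos : ∀ j, 0 ≤ j → 0 < hat N c ρ j := by
    intro j hj
    unfold hat
    split_ifs
    · exact h.pos j hj
    · positivity
  have hmono : ∀ j, hat N c ρ j ≤ hat N c ρ (j + 1) := by
    intro j
    rcases lt_or_ge j c with hj | hj
    · rw [hat_of_le hj.le, hat_of_le (by omega)]
      exact h.mono (by omega)
    · rw [hat_succ hj, le_div_iff₀ hρ]
      exact mul_le_of_le_one_right (hpos j (by omega)).le hρ1
  refine ⟨fun j hj => ?_, hpos, monotone_int_of_le_succ hmono, fun j => ?_⟩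
  · rw [hat_of_le (by omega)]
    exact h.neg j hj
  · rcases lt_or_ge j c with hj | hj
    · rw [hat_of_le (by omega), hat_of_le (by omega), hat_of_le (by omega)]
      exact h.lc j
    · rw [hat_succ hj]
      rcases eq_or_lt_of_le hj with h3 | h3
      · subst h3
        rw [hat_of_le (by omega), hat_of_le le_rfl, mul_div_assoc', div_le_iff₀ hρ]
        nlinarith
      · have h4 : hat N c ρ j = hat N c ρ (j - 1) / ρ := by
          have := hat_succ (N := N) (c := c) (ρ := ρ) (p := j - 1) (by omega)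
          rwa [show j - 1 + 1 = j by ring] at this
        rw [h4]
        refine le_of_eq ?_
        field_simp

theorem le_hat (h : LC N) (hc : 0 ≤ c) (hρ : 0 < ρ) (h1 : ρ * N (c + 1) ≤ N c) (j : ℤ) :
    N j ≤ hat N c ρ j := by
  rcases le_or_gt j c with hj | hj
  · rw [hat_of_le hj]
  · unfold hat
    rw [if_neg (by omega)]
    obtain ⟨m, rfl⟩ : ∃ m : ℕ, j = c + m := ⟨(j - c).toNat, by omega⟩
    rw [show (c + (m : ℤ) - c).toNat = m by omega, le_div_iff₀ (by positivity), mul_comm]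
    exact LC.le_up h hc hρ h1 m

theorem HHj_hat {k : ℕ} (hk : 1 ≤ k) {x : ℝ} (hx : 0 < x) (h : LC N) (hc : 0 ≤ c) (hρ : 0 < ρ)
    (h2 : N (c - 1) ≤ ρ * N c) (hH : ∀ j, 0 ≤ j → j < c → HHj k x N j)
    (hHc : ((1 + x) * N c) ^ k ≤ (N c + x * (N c / ρ)) * (N c + x * N (c - 1)) ^ (k - 1))
    (j : ℤ) (hj : 0 ≤ j) : HHj k x (hat N c ρ) j := by
  unfold HHj
  have hNc := h.pos c hc
  rcases lt_trichotomy j c with h3 | h3 | h3
  · rw [hat_of_le (by omega), hat_of_le (by omega), hat_of_le (by omega)]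
    exact hH j hj h3
  · subst h3
    rw [hat_succ le_rfl, hat_of_le le_rfl, hat_of_le (by omega)]
    exact hHc
  · have ha : 0 < hat N c ρ j := by
      unfold hat
      rw [if_neg (by omega)]
      positivity
    have e1 : hat N c ρ (j + 1) = hat N c ρ j / ρ := hat_succ (by omega)
    have e2 : hat N c ρ (j - 1) = hat N c ρ j * ρ := by
      have := hat_succ (N := N) (c := c) (ρ := ρ) (p := j - 1) (by omega)
      rw [show j - 1 + 1 = j by ring] at this
      rw [this]
      field_simp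
    have h4 : ((1 + x) * N c) ^ k ≤ (N c + x * (N c / ρ)) * (N c + x * (N c * ρ)) ^ (k - 1) := by
      refine hHc.trans (mul_le_mul_of_nonneg_left ?_ (by positivity))
      refine pow_le_pow_left₀ ?_ ?_ _
      · have := LC.nonneg h (c - 1)
        positivity
      · have := mul_le_mul_of_nonneg_left h2 hx.le
        linarith
    rw [e1, e2]
    set a := hat N c ρ j with hadef
    have h5 : ((1 + x) * a) ^ k = ((1 + x) * N c) ^ k * (a / N c) ^ k := by
      rw [← mul_pow]
      congr 1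
      field_simp
    obtain ⟨m, rfl⟩ : ∃ m, k = m + 1 := ⟨k - 1, by omega⟩
    rw [Nat.add_sub_cancel] at h4 ⊢
    have h6 := mul_le_mul_of_nonneg_right h4 (show 0 ≤ (a / N c) ^ (m + 1) by positivity)
    rw [h5]
    refine h6.trans (le_of_eq ?_)
    have e5 : (N c + x * (N c / ρ)) * (N c + x * (N c * ρ)) ^ m * (a / N c) ^ (m + 1) =
        ((N c + x * (N c / ρ)) * (a / N c)) * ((N c + x * (N c * ρ)) * (a / N c)) ^ m := by
      rw [mul_pow, pow_succ]; ring
    rw [e5]
    congr 1
    · field_simp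
    · congr 1
      field_simp

end Hat

/-! ## Iterates of `TT` -/

theorem TT_iter_congr {N N' : ℤ → ℝ} {c : ℤ} : ∀ (y : ℕ), (∀ p ≤ c, N p = N' p) →
    ∀ p ≤ c, (TT^[y] N) p = (TT^[y] N') p := by
  intro y
  induction y with
  | zero => intro h p hp; exact h p hp
  | succ y ih =>
    intro h p hp
    rw [Function.iterate_succ_apply', Function.iterate_succ_apply']
    have h1 := ih h p hp
    have h2 := ih h (p - 1) (by omega)
    change (TT^[y] N) p + (TT^[y] N) (p - 1) = (TT^[y] N') p + (TT^[y] N') (p - 1)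
    rw [h1, h2]

theorem TT_iter_succ {N N' : ℤ → ℝ} {c : ℤ} : ∀ (y : ℕ), (∀ p ≤ c, N p = N' p) →
    (TT^[y] N) (c + 1) = (TT^[y] N') (c + 1) + (N (c + 1) - N' (c + 1)) := by
  intro y
  induction y with
  | zero => intro _; simp
  | succ y ih =>
    intro h
    rw [Function.iterate_succ_apply', Function.iterate_succ_apply']
    have h1 := ih h
    have h2 := TT_iter_congr y h c le_rfl
    have e : c + 1 - 1 = c := by ring
    change (TT^[y] N) (c + 1) + (TT^[y] N) (c + 1 - 1) =
      (TT^[y] N') (c + 1) + (TT^[y] N') (c + 1 - 1) + _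
    rw [e, h1, h2]
    ring

theorem TT_iter_le_exp {N : ℤ → ℝ} {C x : ℝ} {c : ℤ} (hx : 0 < x)
    (h : ∀ j, N j ≤ C * x ^ (-(j - c))) :
    ∀ (y : ℕ) (j : ℤ), (TT^[y] N) j ≤ C * (1 + x) ^ y * x ^ (-(j - c)) := by
  intro y
  induction y with
  | zero => intro j; simpa using h j
  | succ y ih =>
    intro j
    rw [Function.iterate_succ_apply']
    change (TT^[y] N) j + (TT^[y] N) (j - 1) ≤ _
    have h1 := ih j
    have h2 := ih (j - 1)
    have e : x ^ (-(j - 1 - c)) = x * x ^ (-(j - c)) := by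
      rw [show -(j - 1 - c) = 1 + -(j - c) by ring, zpow_add₀ hx.ne', zpow_one]
    rw [e] at h2
    calc (TT^[y] N) j + (TT^[y] N) (j - 1)
        ≤ C * (1 + x) ^ y * x ^ (-(j - c)) + C * (1 + x) ^ y * (x * x ^ (-(j - c))) :=
          add_le_add h1 h2
      _ = C * (1 + x) ^ (y + 1) * x ^ (-(j - c)) := by rw [pow_succ]; ring

end Pool.Agent.H69.EF
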